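import Mathlib

set_option autoImplicit false

namespace Pool.Agent.Work.MP_505b57_nt

open Polynomial

/-- The forward orbit `{z, f z, f (f z), ...}` of `z` under the polynomial map `f` is finite. -/
def FiniteOrbit {K : Type*} [Field K] (f : K[X]) (z : K) : Prop :=
  (Set.range fun n : ℕ => (fun x : K => f.eval x)^[n] z).Finite

/-- The polynomial `f` over (the algebraically closed field) `K` is postcritically finite:
every (finite) critical point has a finite forward orbit.
(The point at infinity is a fixed point of a polynomial, so it imposes no condition.) -/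
def IsPCF {K : Type*} [Field K] (f : K[X]) : Prop :=
  ∀ c : K, (derivative f).eval c = 0 → FiniteOrbit f c

/-- `f` and `g` are conjugate by an affine map `L(z) = a z + b` with `a ≠ 0`:
`L ∘ f = g ∘ L`. -/
def AffConj {K : Type*} [Field K] (f g : K[X]) : Prop :=
  ∃ a b : K, a ≠ 0 ∧ (C a * X + C b).comp f = g.comp (C a * X + C b)

/-- Polynomials over `K` of degree exactly `d`. -/
abbrev PolyDeg (K : Type*) [Field K] (d : ℕ) := {f : K[X] // f.natDegree = d}

lemma AffConj.refl {K : Type*} [Field K] (f : K[X]) : AffConj f f :=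
  ⟨1, 0, one_ne_zero, by simp⟩

lemma AffConj.symm {K : Type*} [Field K] {f g : K[X]} (h : AffConj f g) : AffConj g f := by
  obtain ⟨a, b, ha, h⟩ := h
  refine ⟨a⁻¹, -(a⁻¹ * b), inv_ne_zero ha, ?_⟩
  have h1 : (C a * X + C b).comp (C a⁻¹ * X + C (-(a⁻¹ * b))) = X := by
    simp only [add_comp, mul_comp, C_comp, X_comp, mul_add, ← mul_assoc, ← C_mul,
      mul_inv_cancel₀ ha, C_1, one_mul]
    rw [add_assoc, ← C_add]
    have : a * -(a⁻¹ * b) + b = 0 := by field_simp; ring
    rw [this, C_0, add_zero]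
  have h2 : (C a⁻¹ * X + C (-(a⁻¹ * b))).comp (C a * X + C b) = X := by
    simp only [add_comp, mul_comp, C_comp, X_comp, mul_add, ← mul_assoc, ← C_mul,
      inv_mul_cancel₀ ha, C_1, one_mul]
    rw [add_assoc, ← C_add]
    have : a⁻¹ * b + -(a⁻¹ * b) = 0 := by ring
    rw [this, C_0, add_zero]
  calc (C a⁻¹ * X + C (-(a⁻¹ * b))).comp g
      = (C a⁻¹ * X + C (-(a⁻¹ * b))).comp
          ((g.comp (C a * X + C b)).comp (C a⁻¹ * X + C (-(a⁻¹ * b)))) := by
        rw [comp_assoc, h1, comp_X]
    _ = (C a⁻¹ * X + C (-(a⁻¹ * b))).comp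
          (((C a * X + C b).comp f).comp (C a⁻¹ * X + C (-(a⁻¹ * b)))) := by rw [h]
    _ = ((C a⁻¹ * X + C (-(a⁻¹ * b))).comp (C a * X + C b)).comp
          (f.comp (C a⁻¹ * X + C (-(a⁻¹ * b)))) := by
        rw [comp_assoc, comp_assoc]
    _ = f.comp (C a⁻¹ * X + C (-(a⁻¹ * b))) := by rw [h2, X_comp]

lemma AffConj.trans {K : Type*} [Field K] {f g h : K[X]} (h1 : AffConj f g) (h2 : AffConj g h) :
    AffConj f h := by
  obtain ⟨a, b, ha, h1⟩ := h1
  obtain ⟨a', b', ha', h2⟩ := h2
  refine ⟨a' * a, a' * b + b', mul_ne_zero ha' ha, ?_⟩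
  have h3 : C (a' * a) * X + C (a' * b + b') = (C a' * X + C b').comp (C a * X + C b) := by
    simp only [add_comp, mul_comp, C_comp, X_comp, C_mul, C_add]
    ring
  rw [h3, comp_assoc, h1, ← comp_assoc, h2, comp_assoc]

/-- Conjugacy by affine maps on polynomials of degree `d`. -/
def affSetoid (K : Type*) [Field K] (d : ℕ) : Setoid (PolyDeg K d) where
  r f g := AffConj f.1 g.1
  iseqv := ⟨fun f => AffConj.refl f.1, fun h => h.symm, fun h1 h2 => h1.trans h2⟩

/-- The set `P_d(K)` (for `K` algebraically closed) of conjugacy classes of polynomials of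
degree `d` over `K` modulo affine conjugation. -/
def PolyModuli (K : Type*) [Field K] (d : ℕ) := Quotient (affSetoid K d)

lemma AffConj.map {K : Type*} [Field K] {f g : K[X]} (σ : K →+* K)
    (h : AffConj f g) : AffConj (f.map σ) (g.map σ) := by
  obtain ⟨a, b, ha, h⟩ := h
  refine ⟨σ a, σ b, ?_, ?_⟩
  · rwa [ne_eq, map_eq_zero]
  · have := congrArg (Polynomial.map σ) h
    simpa [Polynomial.map_comp] using this

/-- The action of a field automorphism `σ` of `K` over `F` on conjugacy classes,
through the coefficients. -/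
noncomputable def galAct {F K : Type*} [Field F] [Field K] [Algebra F K] (d : ℕ) (σ : K ≃ₐ[F] K) :
    PolyModuli K d → PolyModuli K d :=
  Quotient.map
    (fun f : PolyDeg K d => (⟨f.1.map (σ : K →+* K), by
      rw [natDegree_map]; exact f.2⟩ : PolyDeg K d))
    (fun _ _ h => AffConj.map (σ : K →+* K) h)

/-- `P_d(ℚ_p)`: the `ℚ_p`-rational points of the moduli space of degree-`d` polynomials, i.e. the
conjugacy classes over the algebraic closure of `ℚ_p` that are fixed by the Galois group. -/
def PdQp (p : ℕ) [Fact p.Prime] (d : ℕ) : Set (PolyModuli (AlgebraicClosure ℚ_[p]) d) :=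
  {x | ∀ σ : AlgebraicClosure ℚ_[p] ≃ₐ[ℚ_[p]] AlgebraicClosure ℚ_[p], galAct d σ x = x}

/-- `PCF`: the classes of postcritically finite polynomials. -/
def PCFClasses (K : Type*) [Field K] (d : ℕ) : Set (PolyModuli K d) :=
  {x | ∃ f : PolyDeg K d, (Quotient.mk (affSetoid K d) f : PolyModuli K d) = x ∧ IsPCF f.1}

end Pool.Agent.Work.MP_505b57_nt
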