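import Mathlib

set_option autoImplicit false

namespace Pool.Agent.Work.MP_505b57_nt

open MvPolynomial

section

/-- points over a given value of a coordinate of a Noether normalization -/
lemma exists_hom_of_finite {K : Type*} [Field K] [IsAlgClosed K] {R : Type*} [CommRing R]
    [Algebra K R] [Algebra.FiniteType K R] {s : ℕ} (g : MvPolynomial (Fin s) K →ₐ[K] R)
    (hinj : Function.Injective g) (hfin : g.Finite) (i : Fin s) (t : K) :
    ∃ ψ : R →ₐ[K] K, ψ (g (X i)) = t := by
  set ev : MvPolynomial (Fin s) K →ₐ[K] K := aeval (fun _ => t) with hev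
  have hevsurj : Function.Surjective ev := by
    intro c; exact ⟨C c, by simp [hev]⟩
  set P : Ideal (MvPolynomial (Fin s) K) := RingHom.ker ev with hP
  have hPmax : P.IsMaximal := RingHom.ker_isMaximal_of_surjective ev hevsurj
  letI : Algebra (MvPolynomial (Fin s) K) R := g.toRingHom.toAlgebra
  have hint : Algebra.IsIntegral (MvPolynomial (Fin s) K) R := ⟨hfin.to_isIntegral⟩
  have hker : RingHom.ker (algebraMap (MvPolynomial (Fin s) K) R) ≤ P := by
    have : RingHom.ker (algebraMap (MvPolynomial (Fin s) K) R) = ⊥ :=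
      (RingHom.injective_iff_ker_eq_bot _).mp hinj
    rw [this]; exact bot_le
  obtain ⟨q, hqmax, hq⟩ := Ideal.exists_ideal_over_maximal_of_isIntegral P hker
  letI : Field (R ⧸ q) := Ideal.Quotient.field q
  have hfin2 : Module.Finite K (R ⧸ q) := finite_of_finite_type_of_isJacobsonRing _ _
  have hbij := IsAlgClosed.algebraMap_bijective_of_isIntegral (k := K) (K := R ⧸ q)
  let e : K ≃ₐ[K] (R ⧸ q) := AlgEquiv.ofBijective (Algebra.ofId _ _) hbij
  refine ⟨(e.symm : (R ⧸ q) →ₐ[K] K).comp (Ideal.Quotient.mkₐ K q), ?_⟩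
  have hmem : (X i - C t : MvPolynomial (Fin s) K) ∈ P := by
    rw [hP, RingHom.mem_ker]; simp [hev]
  rw [← hq, Ideal.mem_comap] at hmem
  have h1 : g (X i - C t) ∈ q := hmem
  have h2 : Ideal.Quotient.mkₐ K q (g (X i - C t)) = 0 := Ideal.Quotient.eq_zero_iff_mem.mpr h1
  rw [map_sub, map_sub, sub_eq_zero] at h2
  have h3 : (C t : MvPolynomial (Fin s) K) = algebraMap K _ t := rfl
  rw [h3, g.commutes] at h2
  rw [AlgHom.comp_apply, h2, AlgHom.commutes, AlgHom.commutes]
  rfl

variable {K : Type*} [NontriviallyNormedField K]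

/-- evaluation at a point of the zero locus as an algebra homomorphism on the quotient -/
noncomputable def ptHom {n : ℕ} (S : Set (MvPolynomial (Fin n) K)) (x : Fin n → K)
    (hx : ∀ f ∈ S, eval x f = 0) : (MvPolynomial (Fin n) K ⧸ Ideal.span S) →ₐ[K] K :=
  Ideal.Quotient.liftₐ (Ideal.span S) (aeval x) (fun a ha => by
    have h : Ideal.span S ≤ RingHom.ker (aeval x : MvPolynomial (Fin n) K →ₐ[K] K) := by
      rw [Ideal.span_le]
      intro f hf
      show aeval x f = 0
      rw [aeval_eq_eval]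
      exact hx f hf
    exact (RingHom.mem_ker.mp (h ha)))

lemma ptHom_mk {n : ℕ} (S : Set (MvPolynomial (Fin n) K)) (x : Fin n → K)
    (hx : ∀ f ∈ S, eval x f = 0) (h : MvPolynomial (Fin n) K) :
    ptHom S x hx (Ideal.Quotient.mk _ h) = eval x h := by
  have h1 : ptHom S x hx (Ideal.Quotient.mk _ h) = aeval x h := rfl
  rw [h1, aeval_eq_eval]

lemma eval_bounded {n : ℕ} (h : MvPolynomial (Fin n) K) :
    ∃ C : ℝ, ∀ x : Fin n → K, (∀ i, ‖x i‖ ≤ 1) → ‖eval x h‖ ≤ C := by
  refine ⟨∑ m ∈ h.support, ‖h.coeff m‖, fun x hx => ?_⟩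
  rw [eval_eq']
  refine (norm_sum_le _ _).trans (Finset.sum_le_sum fun m _ => ?_)
  rw [norm_mul]
  apply mul_le_of_le_one_right (norm_nonneg _)
  rw [norm_prod]
  apply Finset.prod_le_one
  · intro i _; exact norm_nonneg _
  · intro i _; rw [norm_pow]; exact pow_le_one₀ (norm_nonneg _) (hx i)

/-- A bounded algebraic subset of `K^n` is finite. -/
theorem finite_of_bounded [IsAlgClosed K] {n : ℕ} (S : Set (MvPolynomial (Fin n) K))
    (hb : ∀ x : Fin n → K, (∀ f ∈ S, eval x f = 0) → ∀ i, ‖x i‖ ≤ 1) :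
    {x : Fin n → K | ∀ f ∈ S, eval x f = 0}.Finite := by
  classical
  set I : Ideal (MvPolynomial (Fin n) K) := Ideal.span S with hI
  by_cases htop : I = ⊤
  · -- empty zero locus
    have : {x : Fin n → K | ∀ f ∈ S, eval x f = 0} = ∅ := by
      rw [Set.eq_empty_iff_forall_notMem]
      intro x hx
      have h1 : (1 : MvPolynomial (Fin n) K) ∈ I := by rw [htop]; trivial
      have h2 : I ≤ RingHom.ker (eval x) := by
        rw [hI, Ideal.span_le]; intro f hf; exact hx f hf
      have h3 := h2 h1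
      rw [RingHom.mem_ker, map_one] at h3
      exact one_ne_zero h3
    rw [this]; exact Set.finite_empty
  have hnt : Nontrivial (MvPolynomial (Fin n) K ⧸ I) := Ideal.Quotient.nontrivial_iff.mpr htop
  obtain ⟨s, g, hinj, hfin⟩ := exists_finite_inj_algHom_of_fg K (MvPolynomial (Fin n) K ⧸ I)
  rcases Nat.eq_zero_or_pos s with hs | hs
  · -- finite-dimensional
    subst hs
    have hmf : Module.Finite K (MvPolynomial (Fin n) K ⧸ I) := by
      have h1 : (algebraMap K (MvPolynomial (Fin 0) K)).Finite := by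
        apply RingHom.Finite.of_surjective
        intro q
        exact ⟨coeff 0 q, (eq_C_of_isEmpty q).symm⟩
      have h2 : (g.toRingHom.comp (algebraMap K (MvPolynomial (Fin 0) K))).Finite :=
        RingHom.Finite.comp hfin h1
      have h3 : g.toRingHom.comp (algebraMap K (MvPolynomial (Fin 0) K))
          = algebraMap K (MvPolynomial (Fin n) K ⧸ I) := g.comp_algebraMap
      rw [h3] at h2
      exact RingHom.finite_algebraMap.mp h2
    have hfinhom : Finite ((MvPolynomial (Fin n) K ⧸ I) →ₐ[K] K) :=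
      @Fintype.finite _ (minpoly.AlgHom.fintype _ _ _)
    have hinj2 : Function.Injective
        (fun x : {x : Fin n → K | ∀ f ∈ S, eval x f = 0} =>
          (ptHom S x.1 x.2 : (MvPolynomial (Fin n) K ⧸ I) →ₐ[K] K)) := by
      intro x y hxy
      apply Subtype.ext
      funext i
      have h1 := DFunLike.congr_fun hxy (Ideal.Quotient.mk _ (X i))
      simp only [ptHom_mk, eval_X] at h1
      exact h1
    have : Finite {x : Fin n → K | ∀ f ∈ S, eval x f = 0} := Finite.of_injective _ hinj2
    exact Set.toFinite _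
  · -- unbounded
    exfalso
    obtain ⟨h, hh⟩ := Ideal.Quotient.mk_surjective (g (X ⟨0, hs⟩))
    obtain ⟨Cb, hC⟩ := eval_bounded h
    obtain ⟨t, ht⟩ := NormedField.exists_lt_norm K Cb
    obtain ⟨ψ, hψt⟩ := exists_hom_of_finite g hinj hfin ⟨0, hs⟩ t
    let x : Fin n → K := fun i => ψ (Ideal.Quotient.mk I (X i))
    have hψ : ∀ f : MvPolynomial (Fin n) K, ψ (Ideal.Quotient.mk I f) = eval x f := by
      intro f
      have h1 : (ψ.comp (Ideal.Quotient.mkₐ K I)) = aeval x := by
        apply MvPolynomial.algHom_ext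
        intro i
        simp [x]
      have h2 := DFunLike.congr_fun h1 f
      simpa [aeval_eq_eval] using h2
    have hx0 : ∀ f ∈ S, eval x f = 0 := by
      intro f hf
      rw [← hψ, Ideal.Quotient.eq_zero_iff_mem.mpr (Ideal.subset_span hf), map_zero]
    have hCx := hC x (hb x hx0)
    rw [← hψ, hh, hψt] at hCx
    linarith

end

end Pool.Agent.Work.MP_505b57_nt
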