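import Mathlib
import Pool.Agent.Work.MP_505b57_nt.Defs

set_option autoImplicit false

namespace Pool.Agent.Work.MP_505b57_nt

open Polynomial Module

section

/-- degree bound through counting conjugates -/
lemma finrank_adjoin_le {F K : Type*} [Field F] [Field K] [Algebra F K] [CharZero F]
    [IsAlgClosed K] [Algebra.IsAlgebraic F K] (S : Set K) (hS : S.Finite) {ι : Type*}
    (T : Finset ι) (φ : (K ≃ₐ[F] K) → ι) (hφ : ∀ σ, φ σ ∈ T)
    (hinj : ∀ σ τ, φ σ = φ τ → ∀ s ∈ S, σ s = τ s) :
    FiniteDimensional F (IntermediateField.adjoin F S) ∧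
    finrank F (IntermediateField.adjoin F S) ≤ T.card := by
  classical
  set E := IntermediateField.adjoin F S with hE
  have hfd : FiniteDimensional F E := by
    rw [hE]
    haveI : Finite S := hS
    exact IntermediateField.finiteDimensional_adjoin (fun x _ => Algebra.IsIntegral.isIntegral x)
  refine ⟨hfd, ?_⟩
  have hnormal : Normal F K := by
    haveI : IsAlgClosure F K := ⟨inferInstance, inferInstance⟩
    exact IsAlgClosure.normal F K
  obtain ⟨α, hα⟩ := Field.exists_primitive_element F E
  have hint : IsIntegral F α := Algebra.IsIntegral.isIntegral α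
  have hdeg : finrank F E = (minpoly F (α : K)).natDegree := by
    have h1 : finrank F (IntermediateField.adjoin F {α}) = (minpoly F α).natDegree :=
      IntermediateField.adjoin.finrank hint
    rw [hα, IntermediateField.finrank_top'] at h1
    rw [h1]
    congr 1
    exact (minpoly.algebraMap_eq (B := E) (B' := K) (algebraMap E K).injective α).symm
  have hagree : ∀ σ τ : K ≃ₐ[F] K, (∀ s ∈ S, σ s = τ s) → ∀ x ∈ E, σ x = τ x := by
    intro σ τ h x hx
    rw [hE] at hx
    induction hx using IntermediateField.adjoin_induction with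
    | mem x hx => exact h x hx
    | algebraMap x => simp
    | add x y _ _ hx hy => rw [map_add, map_add, hx, hy]
    | inv x _ hx => rw [map_inv₀, map_inv₀, hx]
    | mul x y _ _ hx hy => rw [map_mul, map_mul, hx, hy]
  have hintK : IsIntegral F (α : K) := Algebra.IsIntegral.isIntegral _
  have hcard : (minpoly F (α : K)).natDegree = ((minpoly F (α : K)).aroots K).toFinset.card := by
    have hsep : (minpoly F (α : K)).Separable := (minpoly.irreducible hintK).separable
    rw [Multiset.toFinset_card_of_nodup (nodup_aroots_iff_of_splits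
      (minpoly.ne_zero hintK) (IsAlgClosed.splits _) |>.mpr hsep)]
    rw [aroots_def]
    have h2 := (IsAlgClosed.splits ((minpoly F (α : K)).map (algebraMap F K))).natDegree_eq_card_roots
    rw [← h2, natDegree_map]
  rw [hdeg, hcard]
  have hex : ∀ β ∈ ((minpoly F (α : K)).aroots K).toFinset, ∃ σ : K ≃ₐ[F] K, σ (α : K) = β := by
    intro β hβ
    rw [Multiset.mem_toFinset] at hβ
    have h1 : IsConjRoot F (α : K) β := (isConjRoot_iff_mem_minpoly_aroots hintK).mpr hβ
    obtain ⟨σ, hσ⟩ := isConjRoot_iff_exists_algEquiv.mp h1.symm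
    exact ⟨σ, hσ⟩
  choose! σ hσ using hex
  apply Finset.card_le_card_of_injOn (fun β => φ (σ β))
  · intro β _; exact hφ _
  · intro β hβ γ hγ h
    have h1 := hagree (σ β) (σ γ) (hinj _ _ h) α α.2
    rw [hσ β hβ, hσ γ hγ] at h1
    exact h1

lemma eval_map_equiv {F K : Type*} [Field F] [Field K] [Algebra F K] (σ : K ≃ₐ[F] K) (f : K[X])
    (z : K) : (f.map (σ : K →+* K)).eval (σ z) = σ (f.eval z) := by
  have h : (σ z) = (σ : K →+* K) z := rfl
  rw [h, eval_map, eval₂_at_apply]
  rfl

/-- The field generated by the coefficients and a critical point of a normalized polynomial with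
Galois-stable conjugacy class has bounded degree. -/
lemma finrank_coeff_crit {F K : Type*} [Field F] [Field K] [Algebra F K] [CharZero F]
    [IsAlgClosed K] [Algebra.IsAlgebraic F K] (f : K[X]) (hf : f.Monic) (hd : 2 ≤ f.natDegree)
    (h0 : f.eval 0 = 0) (hgal : ∀ σ : K ≃ₐ[F] K, AffConj f (f.map (σ : K →+* K)))
    (c : K) (hc : (derivative f).eval c = 0) :
    FiniteDimensional F (IntermediateField.adjoin F ((f.coeffs : Set K) ∪ {c})) ∧
    finrank F (IntermediateField.adjoin F ((f.coeffs : Set K) ∪ {c})) ≤ f.natDegree ^ 3 := by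
  classical
  set d := f.natDegree with hdd
  have hchar : CharZero K := charZero_of_injective_algebraMap (algebraMap F K).injective
  have hf0 : f ≠ 0 := hf.ne_zero
  -- the finite sets
  set A : Finset K := (nthRoots (d - 1) (1 : K)).toFinset with hA
  set B : Finset K := (f - X).roots.toFinset with hB
  set D : Finset K := (derivative f).roots.toFinset with hD
  have hfX : f - X ≠ 0 := by
    intro h
    have h1 : f = X := sub_eq_zero.mp h
    have h2 : d = 1 := by rw [hdd, h1, natDegree_X]
    omega
  have hder : derivative f ≠ 0 := by rw [derivative_ne_zero]; omega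
  have hAcard : A.card ≤ d - 1 :=
    (Multiset.toFinset_card_le _).trans (card_nthRoots _ _)
  have hBcard : B.card ≤ d := by
    refine (Multiset.toFinset_card_le _).trans ((card_roots' _).trans ?_)
    refine (natDegree_sub_le _ _).trans ?_
    rw [natDegree_X]
    exact max_le le_rfl (by omega)
  have hDcard : D.card ≤ d - 1 := by
    refine (Multiset.toFinset_card_le _).trans ((card_roots' _).trans ?_)
    exact natDegree_derivative_le f
  -- the data attached to σ
  have hdata : ∀ σ : K ≃ₐ[F] K, ∃ t : K × K × K, t ∈ A ×ˢ B ×ˢ D ∧ t.1 ≠ 0 ∧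
      (C t.1 * X + C (-(t.1 * t.2.1))).comp f =
        (f.map (σ : K →+* K)).comp (C t.1 * X + C (-(t.1 * t.2.1))) ∧
      σ c = t.1 * t.2.2 + -(t.1 * t.2.1) := by
    intro σ
    obtain ⟨a, b, ha, h⟩ := hgal σ
    set L : K[X] := C a * X + C b with hL
    have hLdeg : L.natDegree = 1 := natDegree_linear ha
    have hLlead : L.leadingCoeff = a := leadingCoeff_linear ha
    have hmapmonic : (f.map (σ : K →+* K)).Monic := hf.map _
    have hmapdeg : (f.map (σ : K →+* K)).natDegree = d := by rw [natDegree_map]
    -- a^(d-1) = 1
    have hlead := congrArg leadingCoeff h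
    rw [leadingCoeff_comp (by rw [← hdd]; omega), leadingCoeff_comp (by rw [hLdeg]; exact one_ne_zero),
      hLlead, hLdeg, hf.leadingCoeff, hmapmonic.leadingCoeff, hmapdeg, one_pow, mul_one,
      one_mul] at hlead
    have hapow : a ^ (d - 1) = 1 := by
      have h1 : a ^ d = a ^ (d - 1) * a := by rw [← pow_succ]; congr 1; omega
      rw [h1] at hlead
      have h2 : 1 * a = a ^ (d - 1) * a := by rw [one_mul]; exact hlead
      exact (mul_right_cancel₀ ha h2).symm
    -- fixed point
    set z0 : K := -(a⁻¹ * b) with hz0
    have haz0 : a * z0 + b = 0 := by rw [hz0]; field_simp; ring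
    have hbz : b = -(a * z0) := by linear_combination haz0
    have hfix : f.eval z0 = z0 := by
      have h1 := congrArg (eval z0) h
      rw [eval_comp, eval_comp] at h1
      simp only [hL, eval_add, eval_mul, eval_C, eval_X] at h1
      rw [haz0] at h1
      have h2 : (f.map (σ : K →+* K)).eval 0 = 0 := by
        have h3 := eval_map_equiv σ f 0
        rw [map_zero, h0, map_zero] at h3
        exact h3
      rw [h2] at h1
      have h4 : a * (f.eval z0 - z0) = 0 := by linear_combination h1 - haz0
      rcases mul_eq_zero.mp h4 with h5 | h5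
      · exact absurd h5 ha
      · exact sub_eq_zero.mp h5
    -- critical point
    set c' : K := a⁻¹ * (σ c - b) with hc'
    have hLc' : a * c' + b = σ c := by rw [hc']; field_simp; ring
    have hcrit : (derivative f).eval c' = 0 := by
      have h1 := congrArg derivative h
      rw [derivative_comp, derivative_comp] at h1
      have h2 := congrArg (eval c') h1
      simp only [hL, derivative_add, derivative_mul, derivative_C, derivative_X, eval_mul,
        eval_comp, eval_add, eval_C, eval_X, zero_mul, mul_one, zero_add, add_zero,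
        eval_zero, eval_one] at h2
      rw [hLc', derivative_map, eval_map_equiv, hc, map_zero, mul_zero] at h2
      rcases mul_eq_zero.mp h2 with h5 | h5
      · first
          | exact h5
          | exact absurd h5 ha
      · first
          | exact h5
          | exact absurd h5 ha
    refine ⟨(a, z0, c'), ?_, ha, ?_, ?_⟩
    · rw [Finset.mem_product, Finset.mem_product]
      refine ⟨?_, ?_, ?_⟩
      · rw [hA, Multiset.mem_toFinset, mem_nthRoots (by omega)]; exact hapow
      · rw [hB, Multiset.mem_toFinset, mem_roots hfX]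
        simp [IsRoot, hfix]
      · rw [hD, Multiset.mem_toFinset, mem_roots hder]; exact hcrit
    · simp only
      rw [← hbz]; exact h
    · simp only
      rw [← hbz]; exact hLc'.symm
  choose φ hφ1 hφ2 hφ3 hφ4 using hdata
  have hTcard : (A ×ˢ B ×ˢ D).card ≤ d ^ 3 := by
    rw [Finset.card_product, Finset.card_product]
    calc A.card * (B.card * D.card) ≤ d * (d * d) := by
          apply Nat.mul_le_mul (hAcard.trans (by omega))
          exact Nat.mul_le_mul hBcard (hDcard.trans (by omega))
      _ = d ^ 3 := by ring
  have hfin : ((f.coeffs : Set K) ∪ {c}).Finite := (Finset.finite_toSet _).union (Set.finite_singleton c)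
  have := finrank_adjoin_le (F := F) ((f.coeffs : Set K) ∪ {c}) hfin (A ×ˢ B ×ˢ D) φ hφ1 (by
    intro σ τ hστ s hs
    rcases hs with hs | hs
    · -- coefficients
      have h1 := hφ3 σ
      have h2 := hφ3 τ
      rw [← hστ, h1] at h2
      set L : K[X] := C (φ σ).1 * X + C (-((φ σ).1 * (φ σ).2.1)) with hL
      have hinv : L.comp (C ((φ σ).1)⁻¹ * X + C ((φ σ).2.1)) = X := by
        rw [hL]
        simp only [add_comp, mul_comp, C_comp, X_comp, mul_add, ← mul_assoc, ← C_mul,
          mul_inv_cancel₀ (hφ2 σ), C_1, one_mul]
        rw [add_assoc, ← C_add, add_neg_cancel, C_0, add_zero]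
      have h3 : f.map (σ : K →+* K) = f.map (τ : K →+* K) := by
        have h4 := congrArg (fun q : K[X] => q.comp (C ((φ σ).1)⁻¹ * X + C ((φ σ).2.1))) h2
        rw [comp_assoc, comp_assoc, hinv, comp_X, comp_X] at h4
        exact h4
      rw [Finset.mem_coe, mem_coeffs_iff] at hs
      obtain ⟨n, _, hn⟩ := hs
      have h5 := congrArg (fun q : K[X] => q.coeff n) h3
      simp only [coeff_map] at h5
      rw [hn]; exact h5
    · rw [Set.mem_singleton_iff] at hs
      subst hs
      rw [hφ4 σ, hφ4 τ, hστ])
  exact ⟨this.1, this.2.trans hTcard⟩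

end

end Pool.Agent.Work.MP_505b57_nt
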