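import Mathlib

set_option autoImplicit false

namespace Pool.Agent.Work.MP_505b57_nt

open Polynomial

section NP

variable {K : Type*} [NormedField K] [IsUltrametricDist K]

lemma nsub_le_max (a b : K) : ‖a - b‖ ≤ max ‖a‖ ‖b‖ := by
  have h := IsUltrametricDist.norm_add_le_max a (-b)
  rwa [← sub_eq_add_neg, norm_neg] at h

lemma norm_sub_eq_of_lt {a b : K} (h : ‖b‖ < ‖a‖) : ‖a - b‖ = ‖a‖ := by
  have h1 : ‖a - b‖ ≤ max ‖a‖ ‖b‖ := nsub_le_max a b
  rw [max_eq_left h.le] at h1
  refine le_antisymm h1 ?_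
  by_contra hlt
  push Not at hlt
  have h2 : ‖(a - b) + b‖ ≤ max ‖a - b‖ ‖b‖ := IsUltrametricDist.norm_add_le_max _ _
  have h3 : (a - b) + b = a := by ring
  rw [h3] at h2
  rcases le_max_iff.mp h2 with h4 | h4
  · linarith
  · linarith

lemma norm_sub_le_of_le {a b : K} {c : ℝ} (ha : ‖a‖ ≤ c) (hb : ‖b‖ ≤ c) : ‖a - b‖ ≤ c :=
  (nsub_le_max a b).trans (max_le ha hb)

lemma norm_sub_lt_of_lt {a b : K} {c : ℝ} (ha : ‖a‖ < c) (hb : ‖b‖ < c) : ‖a - b‖ < c :=
  (nsub_le_max a b).trans_lt (max_lt ha hb)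

open Classical in
/-- number of elements of the multiset of norm `< r` -/
noncomputable def nearCount (s : Multiset K) (r : ℝ) : ℕ :=
  Multiset.card (s.filter (fun z => ‖z‖ < r))

/-- Newton polygon lemma for a product of linear factors. -/
lemma np_prod (r : ℝ) (hr : 0 < r) (s : Multiset K) :
    ((s.map (fun z => X - C z)).prod.coeff (nearCount s r) ≠ 0) ∧
    (∀ i, ‖(s.map (fun z => X - C z)).prod.coeff i‖ * r ^ i ≤
      ‖(s.map (fun z => X - C z)).prod.coeff (nearCount s r)‖ * r ^ (nearCount s r)) ∧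
    (∀ i, i < nearCount s r → ‖(s.map (fun z => X - C z)).prod.coeff i‖ * r ^ i <
      ‖(s.map (fun z => X - C z)).prod.coeff (nearCount s r)‖ * r ^ (nearCount s r)) := by
  classical
  induction s using Multiset.induction_on with
  | empty =>
    refine ⟨by simp [nearCount], ?_, ?_⟩
    · intro i
      simp only [nearCount, Multiset.map_zero, Multiset.prod_zero, Multiset.filter_zero,
        Multiset.card_zero, coeff_one_zero, norm_one, pow_zero, mul_one]
      by_cases hi : i = 0
      · subst hi; simp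
      · simp [coeff_one, hi]
    · intro i hi
      simp [nearCount] at hi
  | cons z s ih =>
    obtain ⟨h0, h1, h2⟩ := ih
    set Q := (s.map (fun z => X - C z)).prod with hQ
    set k := nearCount s r with hk
    have hprod : ((z ::ₘ s).map (fun z => X - C z)).prod = (X - C z) * Q := by
      simp [hQ]
    rw [hprod]
    have hcoeff0 : ((X - C z) * Q).coeff 0 = - (z * Q.coeff 0) := by
      simp [sub_mul]
    have hcoeffS : ∀ i, ((X - C z) * Q).coeff (i + 1) = Q.coeff i - z * Q.coeff (i + 1) := by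
      intro i
      simp [sub_mul, coeff_X_mul]
    have hQk : 0 < ‖Q.coeff k‖ := norm_pos_iff.mpr h0
    by_cases hz : ‖z‖ < r
    · -- near root
      have hcount : nearCount (z ::ₘ s) r = k + 1 := by
        simp [nearCount, hz, hk]
      rw [hcount]
      have hsmall : ‖z * Q.coeff (k + 1)‖ < ‖Q.coeff k‖ := by
        rw [norm_mul]
        have h3 := h1 (k + 1)
        have hrk : 0 < r ^ k := by positivity
        have h4 : ‖Q.coeff (k + 1)‖ * r ≤ ‖Q.coeff k‖ := by
          rw [pow_succ] at h3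
          have : ‖Q.coeff (k + 1)‖ * r * r ^ k ≤ ‖Q.coeff k‖ * r ^ k := by nlinarith
          exact le_of_mul_le_mul_right this hrk
        rcases eq_or_lt_of_le (norm_nonneg (Q.coeff (k + 1))) with h5 | h5
        · rw [← h5]; simpa using h0
        · calc ‖z‖ * ‖Q.coeff (k + 1)‖ < r * ‖Q.coeff (k + 1)‖ := by
                exact mul_lt_mul_of_pos_right hz h5
            _ ≤ ‖Q.coeff k‖ := by linarith
      have hnew : ‖((X - C z) * Q).coeff (k + 1)‖ = ‖Q.coeff k‖ := by
        rw [hcoeffS]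
        exact norm_sub_eq_of_lt hsmall
      refine ⟨?_, ?_, ?_⟩
      · rw [← norm_pos_iff, hnew]; exact hQk
      · intro i
        rw [hnew]
        rcases i with _ | i
        · rw [hcoeff0, norm_neg, norm_mul, pow_zero, mul_one]
          have h3 := h1 0
          simp only [pow_zero, mul_one] at h3
          calc ‖z‖ * ‖Q.coeff 0‖ ≤ r * (‖Q.coeff k‖ * r ^ k) :=
                mul_le_mul hz.le h3 (norm_nonneg _) hr.le
            _ = ‖Q.coeff k‖ * r ^ (k + 1) := by ring
        · rw [hcoeffS]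
          have hA : ‖Q.coeff i‖ * r ^ (i + 1) ≤ ‖Q.coeff k‖ * r ^ (k + 1) := by
            have := mul_le_mul_of_nonneg_right (h1 i) hr.le
            calc ‖Q.coeff i‖ * r ^ (i + 1) = ‖Q.coeff i‖ * r ^ i * r := by ring
              _ ≤ ‖Q.coeff k‖ * r ^ k * r := this
              _ = _ := by ring
          have hB : ‖z * Q.coeff (i + 1)‖ * r ^ (i + 1) ≤ ‖Q.coeff k‖ * r ^ (k + 1) := by
            rw [norm_mul]
            calc ‖z‖ * ‖Q.coeff (i + 1)‖ * r ^ (i + 1)
                = ‖z‖ * (‖Q.coeff (i + 1)‖ * r ^ (i + 1)) := by ring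
              _ ≤ r * (‖Q.coeff k‖ * r ^ k) :=
                  mul_le_mul hz.le (h1 (i + 1)) (by positivity) hr.le
              _ = _ := by ring
          have hrp : 0 < r ^ (i + 1) := by positivity
          have : ‖Q.coeff i - z * Q.coeff (i + 1)‖ ≤ (‖Q.coeff k‖ * r ^ (k + 1)) / r ^ (i + 1) := by
            apply norm_sub_le_of_le
            · rw [le_div_iff₀ hrp]; exact hA
            · rw [le_div_iff₀ hrp]; exact hB
          rwa [le_div_iff₀ hrp] at this
      · intro i hi
        rw [hnew]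
        rcases i with _ | i
        · rw [hcoeff0, norm_neg, norm_mul, pow_zero, mul_one]
          have h3 := h1 0
          simp only [pow_zero, mul_one] at h3
          have hpos : 0 < ‖Q.coeff k‖ * r ^ k := by positivity
          calc ‖z‖ * ‖Q.coeff 0‖ ≤ ‖z‖ * (‖Q.coeff k‖ * r ^ k) :=
                mul_le_mul_of_nonneg_left h3 (norm_nonneg _)
            _ < r * (‖Q.coeff k‖ * r ^ k) := mul_lt_mul_of_pos_right hz hpos
            _ = ‖Q.coeff k‖ * r ^ (k + 1) := by ring
        · rw [hcoeffS]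
          have hik : i < k := by omega
          have hpos : 0 < ‖Q.coeff k‖ * r ^ k := by positivity
          have hA : ‖Q.coeff i‖ * r ^ (i + 1) < ‖Q.coeff k‖ * r ^ (k + 1) := by
            have := mul_lt_mul_of_pos_right (h2 i hik) hr
            calc ‖Q.coeff i‖ * r ^ (i + 1) = ‖Q.coeff i‖ * r ^ i * r := by ring
              _ < ‖Q.coeff k‖ * r ^ k * r := this
              _ = _ := by ring
          have hB : ‖z * Q.coeff (i + 1)‖ * r ^ (i + 1) < ‖Q.coeff k‖ * r ^ (k + 1) := by
            rw [norm_mul]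
            calc ‖z‖ * ‖Q.coeff (i + 1)‖ * r ^ (i + 1)
                = ‖z‖ * (‖Q.coeff (i + 1)‖ * r ^ (i + 1)) := by ring
              _ ≤ ‖z‖ * (‖Q.coeff k‖ * r ^ k) :=
                  mul_le_mul_of_nonneg_left (h1 (i + 1)) (norm_nonneg _)
              _ < r * (‖Q.coeff k‖ * r ^ k) := mul_lt_mul_of_pos_right hz hpos
              _ = _ := by ring
          have hrp : 0 < r ^ (i + 1) := by positivity
          have : ‖Q.coeff i - z * Q.coeff (i + 1)‖ < (‖Q.coeff k‖ * r ^ (k + 1)) / r ^ (i + 1) := by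
            apply norm_sub_lt_of_lt
            · rw [lt_div_iff₀ hrp]; exact hA
            · rw [lt_div_iff₀ hrp]; exact hB
          rwa [lt_div_iff₀ hrp] at this
    · -- far root
      have hcount : nearCount (z ::ₘ s) r = k := by
        simp [nearCount, hz, hk]
      rw [hcount]
      push Not at hz
      have hzpos : 0 < ‖z‖ := hr.trans_le hz
      have hnew : ‖((X - C z) * Q).coeff k‖ = ‖z‖ * ‖Q.coeff k‖ := by
        rcases hk' : k with _ | k'
        · rw [hcoeff0, norm_neg, norm_mul]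
        · rw [hcoeffS]
          have h3 := h2 k' (by omega)
          have hlt : ‖Q.coeff k'‖ < ‖z * Q.coeff (k' + 1)‖ := by
            rw [norm_mul]
            have hrk : 0 < r ^ k' := by positivity
            rw [hk', pow_succ] at h3
            have h4 : ‖Q.coeff k'‖ * r ^ k' < (‖Q.coeff (k' + 1)‖ * r) * r ^ k' := by nlinarith
            have h5 : ‖Q.coeff k'‖ < ‖Q.coeff (k' + 1)‖ * r := lt_of_mul_lt_mul_right h4 hrk.le
            calc ‖Q.coeff k'‖ < ‖Q.coeff (k' + 1)‖ * r := h5
              _ ≤ ‖Q.coeff (k' + 1)‖ * ‖z‖ := mul_le_mul_of_nonneg_left hz (norm_nonneg _)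
              _ = _ := by ring
          rw [norm_sub_rev, norm_sub_eq_of_lt hlt, norm_mul]
      have hpos : 0 < ‖Q.coeff k‖ * r ^ k := by positivity
      refine ⟨?_, ?_, ?_⟩
      · rw [← norm_pos_iff, hnew]; positivity
      · intro i
        rw [hnew]
        rcases i with _ | i
        · rw [hcoeff0, norm_neg, norm_mul, pow_zero, mul_one]
          have h3 := h1 0
          simp only [pow_zero, mul_one] at h3
          calc ‖z‖ * ‖Q.coeff 0‖ ≤ ‖z‖ * (‖Q.coeff k‖ * r ^ k) :=
                mul_le_mul_of_nonneg_left h3 (norm_nonneg _)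
            _ = _ := by ring
        · rw [hcoeffS]
          have hA : ‖Q.coeff i‖ * r ^ (i + 1) ≤ ‖z‖ * ‖Q.coeff k‖ * r ^ k := by
            calc ‖Q.coeff i‖ * r ^ (i + 1) = (‖Q.coeff i‖ * r ^ i) * r := by ring
              _ ≤ (‖Q.coeff k‖ * r ^ k) * ‖z‖ := mul_le_mul (h1 i) hz hr.le hpos.le
              _ = _ := by ring
          have hB : ‖z * Q.coeff (i + 1)‖ * r ^ (i + 1) ≤ ‖z‖ * ‖Q.coeff k‖ * r ^ k := by
            rw [norm_mul]
            calc ‖z‖ * ‖Q.coeff (i + 1)‖ * r ^ (i + 1)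
                = ‖z‖ * (‖Q.coeff (i + 1)‖ * r ^ (i + 1)) := by ring
              _ ≤ ‖z‖ * (‖Q.coeff k‖ * r ^ k) :=
                  mul_le_mul_of_nonneg_left (h1 (i + 1)) (norm_nonneg _)
              _ = _ := by ring
          have hrp : 0 < r ^ (i + 1) := by positivity
          have : ‖Q.coeff i - z * Q.coeff (i + 1)‖ ≤ (‖z‖ * ‖Q.coeff k‖ * r ^ k) / r ^ (i + 1) := by
            apply norm_sub_le_of_le
            · rw [le_div_iff₀ hrp]; exact hA
            · rw [le_div_iff₀ hrp]; exact hB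
          rwa [le_div_iff₀ hrp] at this
      · intro i hi
        rw [hnew]
        rcases i with _ | i
        · rw [hcoeff0, norm_neg, norm_mul, pow_zero, mul_one]
          have h3 := h2 0 hi
          simp only [pow_zero, mul_one] at h3
          calc ‖z‖ * ‖Q.coeff 0‖ < ‖z‖ * (‖Q.coeff k‖ * r ^ k) :=
                mul_lt_mul_of_pos_left h3 hzpos
            _ = _ := by ring
        · rw [hcoeffS]
          have hA : ‖Q.coeff i‖ * r ^ (i + 1) < ‖z‖ * ‖Q.coeff k‖ * r ^ k := by
            calc ‖Q.coeff i‖ * r ^ (i + 1) = (‖Q.coeff i‖ * r ^ i) * r := by ring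
              _ < (‖Q.coeff k‖ * r ^ k) * r := mul_lt_mul_of_pos_right (h2 i (by omega)) hr
              _ ≤ (‖Q.coeff k‖ * r ^ k) * ‖z‖ := mul_le_mul_of_nonneg_left hz hpos.le
              _ = _ := by ring
          have hB : ‖z * Q.coeff (i + 1)‖ * r ^ (i + 1) < ‖z‖ * ‖Q.coeff k‖ * r ^ k := by
            rw [norm_mul]
            calc ‖z‖ * ‖Q.coeff (i + 1)‖ * r ^ (i + 1)
                = ‖z‖ * (‖Q.coeff (i + 1)‖ * r ^ (i + 1)) := by ring
              _ < ‖z‖ * (‖Q.coeff k‖ * r ^ k) := mul_lt_mul_of_pos_left (h2 (i + 1) hi) hzpos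
              _ = _ := by ring
          have hrp : 0 < r ^ (i + 1) := by positivity
          have : ‖Q.coeff i - z * Q.coeff (i + 1)‖ < (‖z‖ * ‖Q.coeff k‖ * r ^ k) / r ^ (i + 1) := by
            apply norm_sub_lt_of_lt
            · rw [lt_div_iff₀ hrp]; exact hA
            · rw [lt_div_iff₀ hrp]; exact hB
          rwa [lt_div_iff₀ hrp] at this

variable [IsAlgClosed K]

omit [IsUltrametricDist K] in
lemma eq_C_mul_prod (Q : K[X]) :
    Q = C Q.leadingCoeff * (Q.roots.map (fun z => X - C z)).prod := by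
  have h : Multiset.card Q.roots = Q.natDegree := by
    exact (IsAlgClosed.splits Q).natDegree_eq_card_roots.symm
  exact (C_leadingCoeff_mul_prod_multiset_X_sub_C h).symm

/-- Newton polygon lemma. -/
lemma np_poly (r : ℝ) (hr : 0 < r) (Q : K[X]) (hQ : Q ≠ 0) :
    (Q.coeff (nearCount Q.roots r) ≠ 0) ∧
    (∀ i, ‖Q.coeff i‖ * r ^ i ≤
      ‖Q.coeff (nearCount Q.roots r)‖ * r ^ (nearCount Q.roots r)) ∧
    (∀ i, i < nearCount Q.roots r → ‖Q.coeff i‖ * r ^ i <
      ‖Q.coeff (nearCount Q.roots r)‖ * r ^ (nearCount Q.roots r)) := by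
  obtain ⟨h0, h1, h2⟩ := np_prod r hr Q.roots
  have hl : Q.leadingCoeff ≠ 0 := leadingCoeff_ne_zero.mpr hQ
  have hlp : 0 < ‖Q.leadingCoeff‖ := norm_pos_iff.mpr hl
  have hc : ∀ i, Q.coeff i = Q.leadingCoeff * (Q.roots.map (fun z => X - C z)).prod.coeff i := by
    intro i
    conv_lhs => rw [eq_C_mul_prod Q]
    rw [coeff_C_mul]
  refine ⟨?_, ?_, ?_⟩
  · rw [hc]; exact mul_ne_zero hl h0
  · intro i
    rw [hc i, hc (nearCount Q.roots r), norm_mul, norm_mul, mul_assoc, mul_assoc]
    exact mul_le_mul_of_nonneg_left (h1 i) hlp.le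
  · intro i hi
    rw [hc i, hc (nearCount Q.roots r), norm_mul, norm_mul, mul_assoc, mul_assoc]
    exact mul_lt_mul_of_pos_left (h2 i hi) hlp

end NP

end Pool.Agent.Work.MP_505b57_nt
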