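import Mathlib
import Pool.Agent.Work.MP_505b57_nt.NP

set_option autoImplicit false

namespace Pool.Agent.Work.MP_505b57_nt

open Polynomial

section GoodRed

variable {K : Type*} [NormedField K] [IsUltrametricDist K]

/-- the norm of natural numbers is the `p`-adic one -/
def NatNorm (p : ℕ) (K : Type*) [NormedField K] : Prop :=
  ∀ n : ℕ, n ≠ 0 → ‖(n : K)‖ = ((p : ℝ) ^ (padicValNat p n))⁻¹

omit [IsUltrametricDist K] in
lemma NatNorm.le_one {p : ℕ} (hp : p.Prime) (h : NatNorm p K) (n : ℕ) : ‖(n : K)‖ ≤ 1 := by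
  by_cases hn : n = 0
  · subst hn; simp
  · rw [h n hn]
    have : (1 : ℝ) ≤ (p : ℝ) ^ (padicValNat p n) :=
      one_le_pow₀ (by exact_mod_cast hp.one_lt.le)
    exact inv_le_one_of_one_le₀ this

omit [IsUltrametricDist K] in
lemma NatNorm.ge_inv {p : ℕ} (hp : p.Prime) (h : NatNorm p K) (n : ℕ) (hn : n ≠ 0) :
    ((n : ℝ))⁻¹ ≤ ‖(n : K)‖ := by
  rw [h n hn]
  have hpos : (0 : ℝ) < (p : ℝ) ^ (padicValNat p n) := by
    have : (0 : ℝ) < p := by exact_mod_cast hp.pos
    positivity
  apply inv_anti₀ hpos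
  have : p ^ (padicValNat p n) ∣ n := pow_padicValNat_dvd
  exact_mod_cast Nat.le_of_dvd (Nat.pos_of_ne_zero hn) this

omit [IsUltrametricDist K] in
/-- numeric lemma for `d = m p^k`, `m < p` -/
lemma NatNorm.eq_of_le {p : ℕ} (hp : p.Prime) (h : NatNorm p K) {m k e : ℕ} (hm1 : 1 ≤ m)
    (hmp : m < p) (he1 : 1 ≤ e) (hed : e ≤ m * p ^ k)
    (hle : ‖(e : K)‖ ≤ ‖((m * p ^ k : ℕ) : K)‖) : ‖(e : K)‖ = ‖((m * p ^ k : ℕ) : K)‖ := by
  haveI := Fact.mk hp
  have hd0 : m * p ^ k ≠ 0 := by
    have := hp.pos; positivity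
  have hval : padicValNat p (m * p ^ k) = k := by
    rw [padicValNat.mul (by omega) (by have := hp.pos; positivity), padicValNat.prime_pow]
    have : padicValNat p m = 0 := padicValNat.eq_zero_of_not_dvd
      (fun hdvd => by have := Nat.le_of_dvd (by omega) hdvd; omega)
    omega
  rw [h e (by omega), h _ hd0, hval] at hle
  rw [h e (by omega), h _ hd0, hval]
  have hp1 : (1 : ℝ) < p := by exact_mod_cast hp.one_lt
  have hke : k ≤ padicValNat p e := by
    rw [inv_le_inv₀ (by positivity) (by positivity)] at hle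
    exact (pow_le_pow_iff_right₀ hp1).mp hle
  have hdvd : p ^ k ∣ e := (padicValNat_dvd_iff_le (by omega)).mpr hke
  obtain ⟨e', rfl⟩ := hdvd
  have he' : e' ≤ m := by
    have hpk : 0 < p ^ k := by have := hp.pos; positivity
    have : p ^ k * e' ≤ p ^ k * m := by rw [mul_comm (p ^ k) m]; exact hed
    exact Nat.le_of_mul_le_mul_left this hpk
  have he0 : e' ≠ 0 := by rintro rfl; simp at he1
  have : padicValNat p (p ^ k * e') = k := by
    rw [padicValNat.mul (by have := hp.pos; positivity) he0, padicValNat.prime_pow]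
    have : padicValNat p e' = 0 := padicValNat.eq_zero_of_not_dvd
      (fun hdvd => by have := Nat.le_of_dvd (by omega) hdvd; omega)
    omega
  rw [this]

lemma coeff_prod_le_one (s : Multiset K) (hs : ∀ z ∈ s, ‖z‖ ≤ 1) (i : ℕ) :
    ‖(s.map (fun z => X - C z)).prod.coeff i‖ ≤ 1 := by
  classical
  induction s using Multiset.induction_on generalizing i with
  | empty =>
    simp only [Multiset.map_zero, Multiset.prod_zero, coeff_one]
    split_ifs <;> simp
  | cons z s ih =>
    have ih' := ih (fun w hw => hs w (Multiset.mem_cons_of_mem hw))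
    have hz := hs z (Multiset.mem_cons_self z s)
    have hprod : ((z ::ₘ s).map (fun z => X - C z)).prod =
        (X - C z) * (s.map (fun z => X - C z)).prod := by simp
    rw [hprod]
    rcases i with _ | i
    · have : ((X - C z) * (s.map (fun z => X - C z)).prod).coeff 0 =
          - (z * (s.map (fun z => X - C z)).prod.coeff 0) := by simp [sub_mul]
      rw [this, norm_neg, norm_mul]
      exact mul_le_one₀ hz (norm_nonneg _) (ih' 0)
    · have : ((X - C z) * (s.map (fun z => X - C z)).prod).coeff (i + 1) =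
          (s.map (fun z => X - C z)).prod.coeff i
            - z * (s.map (fun z => X - C z)).prod.coeff (i + 1) := by
        simp [sub_mul, coeff_X_mul]
      rw [this]
      apply norm_sub_le_of_le (ih' i)
      rw [norm_mul]
      exact mul_le_one₀ hz (norm_nonneg _) (ih' (i + 1))

variable [IsAlgClosed K]

lemma coeff_le_lead (Q : K[X]) (h : ∀ z ∈ Q.roots, ‖z‖ ≤ 1) (i : ℕ) :
    ‖Q.coeff i‖ ≤ ‖Q.leadingCoeff‖ := by
  conv_lhs => rw [eq_C_mul_prod Q]
  rw [coeff_C_mul, norm_mul]
  exact mul_le_of_le_one_right (norm_nonneg _) (coeff_prod_le_one _ h i)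

omit [IsUltrametricDist K] in
lemma eval_eq_prod (Q : K[X]) (z : K) :
    Q.eval z = Q.leadingCoeff * (Q.roots.map (fun w => z - w)).prod := by
  conv_lhs => rw [eq_C_mul_prod Q]
  rw [eval_mul, eval_C, eval_multiset_prod, Multiset.map_map]
  congr 2
  apply Multiset.map_congr rfl
  intro w _
  simp

omit [IsUltrametricDist K] [IsAlgClosed K] in
lemma one_le_norm_prod (s : Multiset K) (z : K) (h : ∀ w ∈ s, 1 ≤ ‖z - w‖) :
    1 ≤ ‖(s.map (fun w => z - w)).prod‖ := by
  induction s using Multiset.induction_on with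
  | empty => simp
  | cons a s ih =>
    rw [Multiset.map_cons, Multiset.prod_cons, norm_mul]
    exact one_le_mul_of_one_le_of_one_le (h a (Multiset.mem_cons_self a s))
      (ih (fun w hw => h w (Multiset.mem_cons_of_mem hw)))

omit [IsAlgClosed K] in
lemma norm_prod_far (s : Multiset K) (z : K) (h : ∀ w ∈ s, ‖w‖ < ‖z‖) :
    ‖(s.map (fun w => z - w)).prod‖ = ‖z‖ ^ (Multiset.card s) := by
  induction s using Multiset.induction_on with
  | empty => simp
  | cons a s ih =>
    rw [Multiset.map_cons, Multiset.prod_cons, norm_mul, Multiset.card_cons, pow_succ,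
      ih (fun w hw => h w (Multiset.mem_cons_of_mem hw)),
      norm_sub_eq_of_lt (h a (Multiset.mem_cons_self a s)), mul_comm]

omit [IsUltrametricDist K] in
lemma card_roots_eq (Q : K[X]) : Multiset.card Q.roots = Q.natDegree :=
  (IsAlgClosed.splits Q).natDegree_eq_card_roots.symm

omit [IsUltrametricDist K] in
lemma roots_comp_shift (Q : K[X]) (ρ : K) :
    (Q.comp (X + C ρ)).roots = Q.roots.map (fun x => x - ρ) := by
  have := roots_comp_C_mul_X_add_C Q 1 ρ isUnit_one
  simpa using this

/-- local count: near `ρ` the derivative has fewer roots than `g`. -/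
lemma local_count [CharZero K] {p : ℕ} (hp : p.Prime) (hN : NatNorm p K) {m k : ℕ} (hm1 : 1 ≤ m)
    (hmp : m < p) (g : K[X]) (hg : g.Monic) (hdeg : g.natDegree = m * p ^ k)
    (hroots : ∀ z ∈ g.roots, ‖z‖ ≤ 1) (hcrit : ∀ z ∈ (derivative g).roots, ‖z‖ ≤ 1)
    (ρ : K) (hρ : ‖ρ‖ ≤ 1) (he : 1 ≤ nearCount (g.roots.map (fun x => x - ρ)) 1) :
    nearCount ((derivative g).roots.map (fun x => x - ρ)) 1 + 1 ≤
      nearCount (g.roots.map (fun x => x - ρ)) 1 := by
  set h := g.comp (X + C ρ) with hh
  have hmon : h.Monic := hg.comp_X_add_C ρ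
  have hhdeg : h.natDegree = m * p ^ k := by
    rw [hh, natDegree_comp, natDegree_X_add_C, mul_one, hdeg]
  have hder : derivative h = (derivative g).comp (X + C ρ) := by
    rw [hh, derivative_comp]; simp
  have hr1 : h.roots = g.roots.map (fun x => x - ρ) := roots_comp_shift g ρ
  have hr2 : (derivative h).roots = (derivative g).roots.map (fun x => x - ρ) := by
    rw [hder]; exact roots_comp_shift _ ρ
  rw [← hr1, ← hr2]
  rw [← hr1] at he
  have hd0 : m * p ^ k ≠ 0 := by have := hp.pos; positivity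
  have hh0 : h ≠ 0 := hmon.ne_zero
  have hh0' : derivative h ≠ 0 := by
    rw [derivative_ne_zero, hhdeg]; exact hd0
  obtain ⟨a0, a1, a2⟩ := np_poly 1 one_pos h hh0
  obtain ⟨b0, b1, b2⟩ := np_poly 1 one_pos (derivative h) hh0'
  set e := nearCount h.roots 1
  set c := nearCount (derivative h).roots 1
  by_contra hlt
  push Not at hlt
  -- so e ≤ c
  have hec : e - 1 < c := by omega
  have hroots' : ∀ z ∈ h.roots, ‖z‖ ≤ 1 := by
    intro z hz
    rw [hr1, Multiset.mem_map] at hz
    obtain ⟨w, hw, rfl⟩ := hz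
    exact norm_sub_le_of_le (hroots w hw) hρ
  have hcrit' : ∀ z ∈ (derivative h).roots, ‖z‖ ≤ 1 := by
    intro z hz
    rw [hr2, Multiset.mem_map] at hz
    obtain ⟨w, hw, rfl⟩ := hz
    exact norm_sub_le_of_le (hcrit w hw) hρ
  have hcoeffe : ‖h.coeff e‖ = 1 := by
    apply le_antisymm
    · have := coeff_le_lead h hroots' e
      rwa [hmon.leadingCoeff, norm_one] at this
    · have := a1 h.natDegree
      simp only [one_pow, mul_one] at this
      rw [coeff_natDegree, hmon.leadingCoeff, norm_one] at this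
      exact this
  have h3 := b2 (e - 1) hec
  simp only [one_pow, mul_one] at h3
  have h4 : ‖(derivative h).coeff c‖ ≤ ‖((m * p ^ k : ℕ) : K)‖ := by
    have := coeff_le_lead (derivative h) hcrit' c
    rwa [leadingCoeff_derivative, hmon.leadingCoeff, one_mul, hhdeg] at this
  have h5 : ‖(derivative h).coeff (e - 1)‖ = ‖(e : K)‖ := by
    rw [coeff_derivative]
    have h6 : e - 1 + 1 = e := by omega
    rw [h6, norm_mul, hcoeffe, one_mul]
    congr 1
    have : ((e - 1 : ℕ) : K) + 1 = ((e - 1 + 1 : ℕ) : K) := by push_cast; ring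
    rw [this, h6]
  have he_le : e ≤ m * p ^ k := by
    rw [← hhdeg, ← card_roots_eq h]
    exact Multiset.card_le_card (Multiset.filter_le _ _)
  have h7 : ‖(e : K)‖ < ‖((m * p ^ k : ℕ) : K)‖ := by
    rw [← h5]; exact h3.trans_le h4
  have h8 := NatNorm.eq_of_le hp hN hm1 hmp he he_le h7.le
  rw [h8] at h7
  exact lt_irrefl _ h7

open Classical in
/-- residue class of a point: the open unit ball around it -/
noncomputable def cls (z : K) : Set K := Metric.ball z 1

omit [IsAlgClosed K] in
lemma cls_eq_iff (z w : K) : cls z = cls w ↔ ‖z - w‖ < 1 := by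
  unfold cls
  constructor
  · intro h
    have : z ∈ Metric.ball w 1 := by rw [← h]; exact Metric.mem_ball_self one_pos
    rwa [mem_ball_iff_norm] at this
  · intro h
    apply IsUltrametricDist.ball_eq_of_mem
    rw [mem_ball_iff_norm, norm_sub_rev]; exact h

open Classical in
omit [IsAlgClosed K] in
lemma count_cls (s : Multiset K) (ρ : K) :
    (s.map cls).count (cls ρ) = nearCount (s.map (fun x => x - ρ)) 1 := by
  unfold nearCount
  rw [Multiset.count, Multiset.countP_map, Multiset.filter_map, Multiset.card_map]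
  congr 1
  apply Multiset.filter_congr
  intro x _
  simp only [Function.comp]
  rw [eq_comm, cls_eq_iff]

/-- main contradiction of the good-reduction argument -/
lemma no_bad [CharZero K] {p : ℕ} (hp : p.Prime) (hN : NatNorm p K) {m k : ℕ} (hm1 : 1 ≤ m)
    (hmp : m < p) (g : K[X]) (hg : g.Monic) (hdeg : g.natDegree = m * p ^ k)
    (hroots : ∀ z ∈ g.roots, ‖z‖ ≤ 1) (h0 : (0 : K) ∈ g.roots)
    (h1 : ∃ z ∈ g.roots, ‖z‖ = 1)
    (hcrit : ∀ z ∈ (derivative g).roots, ‖z‖ ≤ 1)
    (hval : ∀ z ∈ (derivative g).roots, ‖g.eval z‖ < 1) : False := by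
  classical
  obtain ⟨θ, hθ, hθ1⟩ := h1
  set S := (g.roots.map cls).toFinset with hS
  have hd0 : m * p ^ k ≠ 0 := by have := hp.pos; positivity
  -- all classes of critical points belong to `S`
  have hsub : ∀ q ∈ ((derivative g).roots.map cls), q ∈ S := by
    intro q hq
    rw [Multiset.mem_map] at hq
    obtain ⟨γ, hγ, rfl⟩ := hq
    rw [hS, Multiset.mem_toFinset, Multiset.mem_map]
    by_contra hcon
    push Not at hcon
    have hbig : ∀ w ∈ g.roots, 1 ≤ ‖γ - w‖ := by
      intro w hw
      by_contra hlt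
      push Not at hlt
      exact hcon w hw ((cls_eq_iff w γ).mpr (by rw [norm_sub_rev]; exact hlt))
    have h2 := hval γ hγ
    rw [eval_eq_prod, hg.leadingCoeff, one_mul] at h2
    have h3 := one_le_norm_prod g.roots γ hbig
    linarith
  have hc1 : ∑ q ∈ S, ((derivative g).roots.map cls).count q = m * p ^ k - 1 := by
    rw [Multiset.sum_count_eq_card hsub, Multiset.card_map, card_roots_eq, natDegree_derivative,
      hdeg]
  have hc2 : ∑ q ∈ S, (g.roots.map cls).count q = m * p ^ k := by
    rw [hS, Multiset.toFinset_sum_count_eq, Multiset.card_map, card_roots_eq, hdeg]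
  have hle : ∀ q ∈ S, ((derivative g).roots.map cls).count q + 1 ≤ (g.roots.map cls).count q := by
    intro q hq
    rw [hS, Multiset.mem_toFinset] at hq
    have hpos : 1 ≤ (g.roots.map cls).count q := Multiset.one_le_count_iff_mem.mpr hq
    rw [Multiset.mem_map] at hq
    obtain ⟨ρ, hρ, rfl⟩ := hq
    rw [count_cls] at hpos ⊢
    rw [count_cls]
    exact local_count hp hN hm1 hmp g hg hdeg hroots hcrit ρ (hroots ρ hρ) hpos
  have hsum := Finset.sum_le_sum hle
  rw [Finset.sum_add_distrib, hc1, hc2, Finset.sum_const, smul_eq_mul, mul_one] at hsum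
  have hcard : 2 ≤ S.card := by
    have hmem0 : cls (0 : K) ∈ S := by
      rw [hS, Multiset.mem_toFinset]; exact Multiset.mem_map_of_mem _ h0
    have hmem1 : cls θ ∈ S := by
      rw [hS, Multiset.mem_toFinset]; exact Multiset.mem_map_of_mem _ hθ
    have hne : cls (0 : K) ≠ cls θ := by
      intro heq
      rw [cls_eq_iff, zero_sub, norm_neg, hθ1] at heq
      exact lt_irrefl _ heq
    exact Finset.one_lt_card.mpr ⟨_, hmem0, _, hmem1, hne⟩
  omega

end GoodRed

end Pool.Agent.Work.MP_505b57_nt
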