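import Mathlib
import Pool.Agent.Work.MP_505b57_nt.Defs
import Pool.Agent.Work.MP_505b57_nt.GoodRed

set_option autoImplicit false

namespace Pool.Agent.Work.MP_505b57_nt

open Polynomial

section

variable {K : Type*} [NormedField K] [IsUltrametricDist K] [IsAlgClosed K]

lemma norm_eval_far (f : K[X]) (hf : f.Monic) {R : ℝ} (hR : ∀ w ∈ f.roots, ‖w‖ ≤ R) {z : K}
    (hz : R < ‖z‖) : ‖f.eval z‖ = ‖z‖ ^ f.natDegree := by
  rw [eval_eq_prod, hf.leadingCoeff, one_mul,
    norm_prod_far _ _ (fun w hw => (hR w hw).trans_lt hz), card_roots_eq]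

lemma escape (f : K[X]) (hf : f.Monic) (hd : 2 ≤ f.natDegree) {R : ℝ} (hR1 : 1 ≤ R)
    (hR : ∀ w ∈ f.roots, ‖w‖ ≤ R) {z : K} (hz : R < ‖z‖) : ¬ FiniteOrbit f z := by
  intro hfin
  set F : K → K := fun x => f.eval x
  have hstep : ∀ w : K, R < ‖w‖ → ‖w‖ < ‖F w‖ := by
    intro w hw
    have h1 : ‖F w‖ = ‖w‖ ^ f.natDegree := norm_eval_far f hf hR hw
    rw [h1]
    exact lt_self_pow₀ (hR1.trans_lt hw) (by omega)
  have hbig : ∀ n : ℕ, R < ‖F^[n] z‖ := by
    intro n
    induction n with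
    | zero => simpa using hz
    | succ n ih =>
      rw [Function.iterate_succ_apply']
      exact ih.trans (hstep _ ih)
  have hmono : StrictMono (fun n : ℕ => ‖F^[n] z‖) := by
    apply strictMono_nat_of_lt_succ
    intro n
    simp only [Function.iterate_succ_apply']
    exact hstep _ (hbig n)
  have hinj : Function.Injective (fun n : ℕ => F^[n] z) := by
    intro a b hab
    apply hmono.injective
    simp only at hab ⊢
    rw [hab]
  exact Set.infinite_range_of_injective hinj hfin

omit [IsUltrametricDist K] [IsAlgClosed K] in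
lemma FiniteOrbit.eval {f : K[X]} {z : K} (h : FiniteOrbit f z) : FiniteOrbit f (f.eval z) := by
  unfold FiniteOrbit at *
  apply h.subset
  rintro _ ⟨n, rfl⟩
  exact ⟨n + 1, by simp only [Function.iterate_succ_apply]⟩

/-- potential good reduction for `d = m p^k` -/
theorem good_reduction [CharZero K] {p : ℕ} (hp : p.Prime) (hN : NatNorm p K) {m k : ℕ}
    (hm1 : 1 ≤ m) (hmp : m < p) (f : K[X]) (hf : f.Monic) (hdeg : f.natDegree = m * p ^ k)
    (hd2 : 2 ≤ f.natDegree) (h0 : f.eval 0 = 0) (hpcf : IsPCF f) :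
    (∀ z ∈ f.roots, ‖z‖ ≤ 1) ∧ (∀ c ∈ (derivative f).roots, ‖c‖ ≤ 1) := by
  classical
  have hf0 : f ≠ 0 := hf.ne_zero
  have hder0 : derivative f ≠ 0 := by rw [derivative_ne_zero]; omega
  have key : ∀ z ∈ f.roots, ‖z‖ ≤ 1 := by
    by_contra hcon
    push Not at hcon
    obtain ⟨w0, hw0, hw01⟩ := hcon
    obtain ⟨θ, hθ, hmax⟩ := f.roots.toFinset.exists_max_image (fun z => ‖z‖)
      ⟨w0, Multiset.mem_toFinset.mpr hw0⟩
    rw [Multiset.mem_toFinset] at hθ
    have hmax' : ∀ w ∈ f.roots, ‖w‖ ≤ ‖θ‖ := fun w hw => hmax w (Multiset.mem_toFinset.mpr hw)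
    have hθ1 : 1 < ‖θ‖ := hw01.trans_le (hmax' w0 hw0)
    have hθ0 : θ ≠ 0 := norm_pos_iff.mp (one_pos.trans hθ1)
    have hcle : ∀ c ∈ (derivative f).roots, ‖c‖ ≤ ‖θ‖ ∧ ‖f.eval c‖ ≤ ‖θ‖ := by
      intro c hc
      have hc' : (derivative f).eval c = 0 := (mem_roots hder0).mp hc
      have hfin := hpcf c hc'
      constructor
      · by_contra hlt
        push Not at hlt
        exact escape f hf hd2 hθ1.le hmax' hlt hfin
      · by_contra hlt
        push Not at hlt
        exact escape f hf hd2 hθ1.le hmax' hlt hfin.eval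
    set u : K := θ⁻¹ ^ f.natDegree with hu
    have hu0 : u ≠ 0 := pow_ne_zero _ (inv_ne_zero hθ0)
    set g : K[X] := C u * f.comp (C θ * X + C 0) with hg
    have hlin : (C θ * X + C 0 : K[X]).natDegree = 1 := by
      rw [C_0, add_zero]; exact natDegree_C_mul_X θ hθ0
    have hlead : (C θ * X + C 0 : K[X]).leadingCoeff = θ := by
      rw [C_0, add_zero, leadingCoeff_mul, leadingCoeff_C, leadingCoeff_X, mul_one]
    have hgm : g.Monic := by
      unfold Monic
      rw [hg, leadingCoeff_mul, leadingCoeff_C, leadingCoeff_comp (by rw [hlin]; exact one_ne_zero),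
        hlead, hf.leadingCoeff, one_mul, hu, ← mul_pow, inv_mul_cancel₀ hθ0, one_pow]
    have hgdeg : g.natDegree = m * p ^ k := by
      rw [hg, natDegree_C_mul hu0, natDegree_comp, hlin, mul_one, hdeg]
    have hgroots : g.roots = f.roots.map (fun x => θ⁻¹ * x) := by
      rw [hg, roots_C_mul _ hu0, roots_comp_C_mul_X_add_C _ _ _ (IsUnit.mk0 _ hθ0)]
      simp
    have hgder : derivative g = C (u * θ) * (derivative f).comp (C θ * X + C 0) := by
      rw [hg, derivative_C_mul, derivative_comp]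
      simp only [C_0, add_zero, derivative_C_mul, derivative_X, mul_one, C_mul]
      ring
    have hgder_roots : (derivative g).roots = (derivative f).roots.map (fun x => θ⁻¹ * x) := by
      rw [hgder, roots_C_mul _ (mul_ne_zero hu0 hθ0),
        roots_comp_C_mul_X_add_C _ _ _ (IsUnit.mk0 _ hθ0)]
      simp
    refine no_bad hp hN hm1 hmp g hgm hgdeg ?_ ?_ ?_ ?_ ?_
    · intro z hz
      rw [hgroots, Multiset.mem_map] at hz
      obtain ⟨w, hw, rfl⟩ := hz
      rw [norm_mul, norm_inv, inv_mul_le_iff₀ (one_pos.trans hθ1), mul_one]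
      exact hmax' w hw
    · rw [hgroots, Multiset.mem_map]
      exact ⟨0, (mem_roots hf0).mpr h0, by simp⟩
    · refine ⟨1, ?_, by simp⟩
      rw [hgroots, Multiset.mem_map]
      exact ⟨θ, hθ, inv_mul_cancel₀ hθ0⟩
    · intro z hz
      rw [hgder_roots, Multiset.mem_map] at hz
      obtain ⟨w, hw, rfl⟩ := hz
      rw [norm_mul, norm_inv, inv_mul_le_iff₀ (one_pos.trans hθ1), mul_one]
      exact (hcle w hw).1
    · intro z hz
      rw [hgder_roots, Multiset.mem_map] at hz
      obtain ⟨w, hw, rfl⟩ := hz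
      have hev : g.eval (θ⁻¹ * w) = u * f.eval w := by
        rw [hg, eval_mul, eval_C, eval_comp]
        congr 2
        simp [← mul_assoc, mul_inv_cancel₀ hθ0]
      rw [hev, norm_mul, hu, norm_pow, norm_inv]
      have h1 := (hcle w hw).2
      have hθpos : 0 < ‖θ‖ := one_pos.trans hθ1
      calc ‖θ‖⁻¹ ^ f.natDegree * ‖f.eval w‖ ≤ ‖θ‖⁻¹ ^ f.natDegree * ‖θ‖ :=
            mul_le_mul_of_nonneg_left h1 (by positivity)
        _ = ‖θ‖⁻¹ ^ (f.natDegree - 1) := by
            have : f.natDegree = (f.natDegree - 1) + 1 := by omega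
            rw [this, pow_succ]
            simp only [Nat.add_sub_cancel]
            rw [mul_assoc, inv_mul_cancel₀ hθpos.ne', mul_one]
        _ < 1 := by
            apply pow_lt_one₀ (by positivity)
            · exact inv_lt_one_of_one_lt₀ hθ1
            · omega
  refine ⟨key, ?_⟩
  intro c hc
  have hc' : (derivative f).eval c = 0 := (mem_roots hder0).mp hc
  by_contra hlt
  push Not at hlt
  exact escape f hf hd2 le_rfl key hlt (hpcf c hc')

end

end Pool.Agent.Work.MP_505b57_nt
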