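import Mathlib
import Pool.Agent.Work.MP_505b57_nt.Defs

set_option autoImplicit false

namespace Pool.Agent.Work.MP_505b57_nt

open Polynomial

section

variable {K : Type*} [Field K]

lemma AffConj.iterate {f g : K[X]} {a b : K}
    (h : (C a * X + C b).comp f = g.comp (C a * X + C b)) (n : ℕ) (z : K) :
    a * (fun x => f.eval x)^[n] z + b = (fun x => g.eval x)^[n] (a * z + b) := by
  have h1 : ∀ z, a * f.eval z + b = g.eval (a * z + b) := by
    intro z
    have := congrArg (eval z) h
    simpa [eval_comp] using this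
  induction n with
  | zero => rfl
  | succ n ih =>
    rw [Function.iterate_succ_apply', Function.iterate_succ_apply', ← ih, h1]

lemma AffConj.deriv {f g : K[X]} {a b : K} (ha : a ≠ 0)
    (h : (C a * X + C b).comp f = g.comp (C a * X + C b)) (z : K) :
    (derivative f).eval z = (derivative g).eval (a * z + b) := by
  have h1 := congrArg derivative h
  rw [derivative_comp, derivative_comp] at h1
  have h2 := congrArg (eval z) h1
  simp only [derivative_add, derivative_mul, derivative_C, derivative_X, eval_mul,
    eval_comp, eval_add, eval_C, eval_X, zero_mul, mul_one, zero_add, add_zero] at h2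
  have h3 : a * ((derivative f).eval z - (derivative g).eval (a * z + b)) = 0 := by
    linear_combination h2
  rcases mul_eq_zero.mp h3 with h4 | h4
  · exact absurd h4 ha
  · exact sub_eq_zero.mp h4

lemma IsPCF.conj {f g : K[X]} (hf : IsPCF f) (h : AffConj f g) : IsPCF g := by
  obtain ⟨a, b, ha, h⟩ := h
  intro c hc
  set z : K := a⁻¹ * (c - b) with hz
  have hcz : c = a * z + b := by rw [hz]; field_simp; ring
  have h1 : (derivative f).eval z = 0 := by rw [AffConj.deriv ha h, ← hcz]; exact hc
  have h2 := hf z h1
  unfold FiniteOrbit at *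
  have h3 : (Set.range fun n : ℕ => (fun x : K => g.eval x)^[n] c)
      = (fun w => a * w + b) '' (Set.range fun n : ℕ => (fun x : K => f.eval x)^[n] z) := by
    rw [← Set.range_comp]
    congr 1
    funext n
    simp only [Function.comp]
    rw [AffConj.iterate h, ← hcz]
  rw [h3]
  exact h2.image _

lemma exists_normalized [IsAlgClosed K] (f : K[X]) (hd : 2 ≤ f.natDegree) :
    ∃ g : K[X], g.Monic ∧ g.natDegree = f.natDegree ∧ g.eval 0 = 0 ∧ AffConj f g := by
  have hf0 : f ≠ 0 := by intro h; rw [h, natDegree_zero] at hd; omega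
  have hfX : (f - X).degree ≠ 0 := by
    have h1 : (f - X).natDegree = f.natDegree := by
      apply natDegree_sub_eq_left_of_natDegree_lt
      rw [natDegree_X]; omega
    intro h
    have h2 : (f - X).natDegree = 0 := natDegree_eq_zero_iff_degree_le_zero.mpr h.le
    omega
  obtain ⟨β, hβ⟩ := IsAlgClosed.exists_root (f - X) hfX
  have hfix : f.eval β = β := by
    have : (f - X).eval β = 0 := hβ
    rw [eval_sub, eval_X] at this
    exact sub_eq_zero.mp this
  obtain ⟨lam, hlam⟩ := IsAlgClosed.exists_pow_nat_eq f.leadingCoeff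
    (n := f.natDegree - 1) (by omega)
  have hlam0 : lam ≠ 0 := by
    intro h
    rw [h, zero_pow (by omega)] at hlam
    exact hf0 (leadingCoeff_eq_zero.mp hlam.symm)
  set L : K[X] := C lam * X + C (-(lam * β)) with hL
  set L' : K[X] := C lam⁻¹ * X + C β with hL'
  have hLL' : L'.comp L = X := by
    rw [hL, hL']
    simp only [add_comp, mul_comp, C_comp, X_comp, mul_add, ← mul_assoc, ← C_mul,
      inv_mul_cancel₀ hlam0, C_1, one_mul]
    rw [add_assoc, ← C_add]
    have : lam⁻¹ * -(lam * β) + β = 0 := by field_simp; ring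
    rw [this, C_0, add_zero]
  have hLdeg : L.natDegree = 1 := natDegree_linear hlam0
  have hLdeg' : L'.natDegree = 1 := natDegree_linear (inv_ne_zero hlam0)
  refine ⟨L.comp (f.comp L'), ?_, ?_, ?_, lam, -(lam * β), hlam0, ?_⟩
  · have h1 : (f.comp L').natDegree = f.natDegree := by rw [natDegree_comp, hLdeg', mul_one]
    unfold Monic
    rw [leadingCoeff_comp (by rw [h1]; omega), leadingCoeff_comp (by rw [hLdeg']; exact one_ne_zero),
      hL, hL', leadingCoeff_linear hlam0, leadingCoeff_linear (inv_ne_zero hlam0),
      natDegree_linear hlam0, pow_one, ← hlam]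
    have h2 : lam⁻¹ ^ f.natDegree = lam⁻¹ ^ (f.natDegree - 1) * lam⁻¹ := by
      rw [← pow_succ]; congr 1; omega
    rw [h2, inv_pow]
    have h3 : lam ^ (f.natDegree - 1) ≠ 0 := pow_ne_zero _ hlam0
    field_simp
  · rw [natDegree_comp, natDegree_comp, hLdeg, hLdeg', one_mul, mul_one]
  · rw [eval_comp, eval_comp]
    have h1 : L'.eval 0 = β := by rw [hL']; simp
    rw [h1, hfix, hL]
    simp
  · rw [comp_assoc, comp_assoc, hLL', comp_X]

end

end Pool.Agent.Work.MP_505b57_nt
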