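import Mathlib
import Pool.Agent.Work.MP_505b57_nt.Defs

set_option autoImplicit false

namespace Pool.Agent.Work.MP_505b57_nt

open Polynomial

section

variable {K : Type*} [Field K] [CharZero K]

/-- Antiderivative of `(n+1) q` with zero constant term, for `q` of degree `≤ n`,
over a `K`-algebra `A`. -/
noncomputable def antider {A : Type*} [CommRing A] [Algebra K A] (n : ℕ) (q : A[X]) : A[X] :=
  ∑ j ∈ Finset.range (n + 1),
    C (algebraMap K A (((n + 1 : ℕ) : K) / ((j + 1 : ℕ) : K)) * q.coeff j) * X ^ (j + 1)

omit [CharZero K] in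
lemma antider_coeff_zero {A : Type*} [CommRing A] [Algebra K A] (n : ℕ) (q : A[X]) :
    (antider (K := K) n q).coeff 0 = 0 := by
  unfold antider
  rw [finset_sum_coeff]
  apply Finset.sum_eq_zero
  intro j _
  rw [coeff_C_mul, coeff_X_pow]
  simp

omit [CharZero K] in
lemma antider_coeff_succ {A : Type*} [CommRing A] [Algebra K A] (n : ℕ) (q : A[X]) (i : ℕ)
    (hi : i ≤ n) : (antider (K := K) n q).coeff (i + 1) =
      algebraMap K A (((n + 1 : ℕ) : K) / ((i + 1 : ℕ) : K)) * q.coeff i := by
  unfold antider
  rw [finset_sum_coeff, Finset.sum_eq_single i]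
  · rw [coeff_C_mul, coeff_X_pow]; simp
  · intro j _ hj
    rw [coeff_C_mul, coeff_X_pow, if_neg (by omega), mul_zero]
  · intro h
    exact absurd (Finset.mem_range.mpr (by omega)) h

omit [CharZero K] in
lemma antider_coeff_big {A : Type*} [CommRing A] [Algebra K A] (n : ℕ) (q : A[X]) (i : ℕ)
    (hi : n < i) : (antider (K := K) n q).coeff (i + 1) = 0 := by
  unfold antider
  rw [finset_sum_coeff]
  apply Finset.sum_eq_zero
  intro j hj
  rw [Finset.mem_range] at hj
  rw [coeff_C_mul, coeff_X_pow, if_neg (by omega), mul_zero]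

omit [CharZero K] in
lemma antider_map {A B : Type*} [CommRing A] [Algebra K A] [CommRing B] [Algebra K B]
    (φ : A →ₐ[K] B) (n : ℕ) (q : A[X]) :
    (antider (K := K) n q).map (φ : A →+* B) = antider (K := K) n (q.map (φ : A →+* B)) := by
  unfold antider
  rw [Polynomial.map_sum]
  apply Finset.sum_congr rfl
  intro j _
  rw [Polynomial.map_mul, map_C, Polynomial.map_pow, map_X, coeff_map, map_mul]
  congr 3
  simp

/-- product of linear factors for a point -/
noncomputable def critPoly {A : Type*} [CommRing A] {n : ℕ} (c : Fin n → A) : A[X] :=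
  ∏ i, (X - C (c i))

/-- the normalized polynomial with given critical points -/
noncomputable def polyOf {A : Type*} [CommRing A] [Algebra K A] {n : ℕ} (c : Fin n → A) : A[X] :=
  antider (K := K) n (critPoly c)

omit [CharZero K] in
lemma polyOf_map {A B : Type*} [CommRing A] [Algebra K A] [CommRing B] [Algebra K B] {n : ℕ}
    (φ : A →ₐ[K] B) (c : Fin n → A) :
    (polyOf (K := K) c).map (φ : A →+* B) = polyOf (K := K) (fun i => φ (c i)) := by
  unfold polyOf
  rw [antider_map]
  congr 1
  unfold critPoly
  rw [Polynomial.map_prod]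
  apply Finset.prod_congr rfl
  intro i _
  simp

lemma critPoly_natDegree {n : ℕ} (c : Fin n → K) : (critPoly c).natDegree = n := by
  unfold critPoly
  rw [natDegree_prod_of_monic _ _ (fun i _ => monic_X_sub_C _)]
  simp

lemma critPoly_monic {n : ℕ} (c : Fin n → K) : (critPoly c).Monic :=
  monic_prod_of_monic _ _ (fun i _ => monic_X_sub_C _)

lemma polyOf_natDegree {n : ℕ} (c : Fin n → K) : (polyOf (K := K) c).natDegree = n + 1 := by
  apply natDegree_eq_of_le_of_coeff_ne_zero
  · rw [natDegree_le_iff_coeff_eq_zero]
    intro N hN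
    obtain ⟨i, rfl⟩ : ∃ i, N = i + 1 := ⟨N - 1, by omega⟩
    exact antider_coeff_big n _ i (by omega)
  · unfold polyOf
    rw [antider_coeff_succ n _ n le_rfl]
    have h1 : (critPoly c).coeff n = 1 := by
      have := (critPoly_monic c).coeff_natDegree
      rwa [critPoly_natDegree] at this
    rw [h1, mul_one]
    simp only [Algebra.algebraMap_self, RingHom.id_apply]
    exact div_ne_zero (Nat.cast_ne_zero.mpr (by omega)) (Nat.cast_ne_zero.mpr (by omega))

lemma polyOf_monic {n : ℕ} (c : Fin n → K) : (polyOf (K := K) c).Monic := by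
  unfold Monic leadingCoeff
  rw [polyOf_natDegree]
  unfold polyOf
  rw [antider_coeff_succ n _ n le_rfl]
  have h1 : (critPoly c).coeff n = 1 := by
    have := (critPoly_monic c).coeff_natDegree
    rwa [critPoly_natDegree] at this
  rw [h1, mul_one]
  simp only [Algebra.algebraMap_self, RingHom.id_apply]
  exact div_self (Nat.cast_ne_zero.mpr (by omega))

lemma polyOf_derivative {n : ℕ} (c : Fin n → K) :
    derivative (polyOf (K := K) c) = C ((n + 1 : ℕ) : K) * critPoly c := by
  ext i
  rw [coeff_derivative, coeff_C_mul]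
  by_cases hi : i ≤ n
  · unfold polyOf
    rw [antider_coeff_succ n _ i hi]
    simp only [Algebra.algebraMap_self, RingHom.id_apply]
    have h1 : ((i + 1 : ℕ) : K) ≠ 0 := Nat.cast_ne_zero.mpr (by omega)
    have h2 : (i : K) + 1 = ((i + 1 : ℕ) : K) := by push_cast; ring
    rw [h2]
    field_simp
  · unfold polyOf
    rw [antider_coeff_big n _ i (by omega)]
    have : (critPoly c).coeff i = 0 := by
      apply coeff_eq_zero_of_natDegree_lt
      rw [critPoly_natDegree]; omega
    rw [this]; ring

lemma polyOf_eval_zero {n : ℕ} (c : Fin n → K) : (polyOf (K := K) c).eval 0 = 0 := by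
  rw [← coeff_zero_eq_eval_zero]
  exact antider_coeff_zero n _

lemma polyOf_critical {n : ℕ} (c : Fin n → K) (z : K) :
    (derivative (polyOf (K := K) c)).eval z = 0 ↔ ∃ i, z = c i := by
  rw [polyOf_derivative, eval_mul, eval_C]
  have h1 : ((n + 1 : ℕ) : K) ≠ 0 := Nat.cast_ne_zero.mpr (by omega)
  constructor
  · intro h
    have h2 := (mul_eq_zero.mp h).resolve_left h1
    unfold critPoly at h2
    rw [eval_prod, Finset.prod_eq_zero_iff] at h2
    obtain ⟨i, _, hi⟩ := h2
    refine ⟨i, ?_⟩
    simpa [sub_eq_zero] using hi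
  · rintro ⟨i, rfl⟩
    unfold critPoly
    rw [eval_prod, Finset.prod_eq_zero (Finset.mem_univ i) (by simp), mul_zero]

/-- every normalized polynomial is `polyOf` of its critical points -/
lemma exists_polyOf [IsAlgClosed K] (f : K[X]) (hf : f.Monic) {n : ℕ} (hd : f.natDegree = n + 1)
    (h0 : f.eval 0 = 0) : ∃ c : Fin n → K, f = polyOf (K := K) c := by
  have hsplit := IsAlgClosed.splits (derivative f)
  have hcard : Multiset.card (derivative f).roots = n := by
    rw [← hsplit.natDegree_eq_card_roots, natDegree_derivative, hd]; rfl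
  have hprod : derivative f = C (derivative f).leadingCoeff *
      ((derivative f).roots.map (fun z => X - C z)).prod :=
    (C_leadingCoeff_mul_prod_multiset_X_sub_C hsplit.natDegree_eq_card_roots.symm).symm
  obtain ⟨l, hl⟩ := Quot.exists_rep (derivative f).roots
  have hlen : l.length = n := by
    rw [← hcard, ← hl]; rfl
  refine ⟨fun i => l.get (i.cast hlen.symm), ?_⟩
  set c : Fin n → K := fun i => l.get (i.cast hlen.symm) with hc
  have hcp : critPoly c = ((derivative f).roots.map (fun z => X - C z)).prod := by
    rw [← hl]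
    subst hlen
    unfold critPoly
    have h1 : (Multiset.map (fun z => X - C z) (Quot.mk _ l : Multiset K)).prod
        = (l.map (fun z => X - C z)).prod := by
      show (Multiset.map (fun z => X - C z) (l : Multiset K)).prod = _
      rw [Multiset.map_coe, Multiset.prod_coe]
    rw [h1, ← List.prod_ofFn]
    congr 1
    rw [← List.ofFn_get (l.map (fun z => X - C z : K → K[X]))]
    apply List.ext_get
    · simp
    · intro i h1 h2
      simp [hc]
  have hder : derivative f = derivative (polyOf (K := K) c) := by
    rw [polyOf_derivative, hcp]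
    conv_lhs => rw [hprod]
    congr 2
    rw [leadingCoeff_derivative, hf.leadingCoeff, one_mul, hd]
  have hsub : derivative (f - polyOf (K := K) c) = 0 := by
    rw [derivative_sub, hder, sub_self]
  have hconst := natDegree_eq_zero_of_derivative_eq_zero hsub
  rw [natDegree_eq_zero] at hconst
  obtain ⟨a, ha⟩ := hconst
  have h1 := congrArg (eval 0) ha
  rw [eval_C, eval_sub, h0, polyOf_eval_zero, sub_zero] at h1
  rw [h1, C_0] at ha
  exact sub_eq_zero.mp ha.symm

end

end Pool.Agent.Work.MP_505b57_nt
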