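import Mathlib
import Pool.Agent.Work.MP_505b57_nt.NP

set_option autoImplicit false

namespace Pool.Agent.Work.MP_505b57_nt

open Polynomial

section

variable {K : Type*} [NormedField K] [IsUltrametricDist K]

lemma nadd_le {a b : K} {c : ℝ} (ha : ‖a‖ ≤ c) (hb : ‖b‖ ≤ c) : ‖a + b‖ ≤ c :=
  (IsUltrametricDist.norm_add_le_max a b).trans (max_le ha hb)

lemma nadd_lt {a b : K} {c : ℝ} (ha : ‖a‖ < c) (hb : ‖b‖ < c) : ‖a + b‖ < c :=
  (IsUltrametricDist.norm_add_le_max a b).trans_lt (max_lt ha hb)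

lemma nat_norm_le_one (n : ℕ) : ‖(n : K)‖ ≤ 1 := by
  induction n with
  | zero => simp
  | succ n ih =>
    push_cast
    exact nadd_le ih (by simp)

omit [IsUltrametricDist K] in
lemma pow_norm_le_one {x : K} (hx : ‖x‖ ≤ 1) (n : ℕ) : ‖x ^ n‖ ≤ 1 := by
  rw [norm_pow]; exact pow_le_one₀ (norm_nonneg _) hx

lemma pow_sub_pow_norm_le {x y : K} (hx : ‖x‖ ≤ 1) (hy : ‖y‖ ≤ 1) (n : ℕ) :
    ‖x ^ n - y ^ n‖ ≤ ‖x - y‖ := by
  induction n with
  | zero => simp
  | succ n ih =>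
    have h : x ^ (n + 1) - y ^ (n + 1) = x * (x ^ n - y ^ n) + (x - y) * y ^ n := by ring
    rw [h]
    apply nadd_le
    · rw [norm_mul]
      calc ‖x‖ * ‖x ^ n - y ^ n‖ ≤ 1 * ‖x - y‖ := mul_le_mul hx ih (norm_nonneg _) zero_le_one
        _ = ‖x - y‖ := one_mul _
    · rw [norm_mul]
      exact mul_le_of_le_one_right (norm_nonneg _) (pow_norm_le_one hy n)

/-- slopes of monomials -/
lemma pow_slope {x y w : K} (hx : ‖x‖ ≤ 1) (hy : ‖y‖ ≤ 1) (hw : ‖w‖ ≤ 1) {r : ℝ}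
    (hxw : ‖x - w‖ ≤ r) (hyw : ‖y - w‖ ≤ r) (n : ℕ) :
    ∃ q : K, x ^ n - y ^ n = (x - y) * q ∧ ‖q - (n : K) * w ^ (n - 1)‖ ≤ r ∧ ‖q‖ ≤ 1 := by
  have hr : 0 ≤ r := (norm_nonneg _).trans hxw
  induction n with
  | zero => exact ⟨0, by simp, by simpa using hr, by simp⟩
  | succ n ih =>
    obtain ⟨q, h1, h2, h3⟩ := ih
    refine ⟨x * q + y ^ n, ?_, ?_, ?_⟩
    · have : x ^ (n + 1) - y ^ (n + 1) = x * (x ^ n - y ^ n) + (x - y) * y ^ n := by ring
      rw [this, h1]; ring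
    · have hsplit : x * q + y ^ n - ((n + 1 : ℕ) : K) * w ^ (n + 1 - 1)
          = x * (q - (n : K) * w ^ (n - 1)) + (x - w) * ((n : K) * w ^ (n - 1))
            + (y ^ n - w ^ n) := by
        rcases n with _ | n
        · simp
        · simp only [Nat.add_sub_cancel]
          push_cast
          ring
      rw [hsplit]
      apply nadd_le
      · apply nadd_le
        · rw [norm_mul]
          calc ‖x‖ * ‖q - (n : K) * w ^ (n - 1)‖ ≤ 1 * r :=
                mul_le_mul hx h2 (norm_nonneg _) zero_le_one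
            _ = r := one_mul _
        · rw [norm_mul]
          have : ‖(n : K) * w ^ (n - 1)‖ ≤ 1 := by
            rw [norm_mul]
            exact mul_le_one₀ (nat_norm_le_one n) (norm_nonneg _) (pow_norm_le_one hw _)
          exact (mul_le_of_le_one_right (norm_nonneg _) this).trans hxw
      · exact (pow_sub_pow_norm_le hy hw n).trans hyw
    · apply nadd_le
      · rw [norm_mul]; exact mul_le_one₀ hx (norm_nonneg _) h3
      · exact pow_norm_le_one hy n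

/-- slopes of integral polynomials -/
lemma poly_slope (G : K[X]) (hG : ∀ i, ‖G.coeff i‖ ≤ 1) {x y w : K} (hx : ‖x‖ ≤ 1)
    (hy : ‖y‖ ≤ 1) (hw : ‖w‖ ≤ 1) {r : ℝ} (hxw : ‖x - w‖ ≤ r) (hyw : ‖y - w‖ ≤ r) :
    ∃ q : K, G.eval x - G.eval y = (x - y) * q ∧ ‖q - (derivative G).eval w‖ ≤ r ∧ ‖q‖ ≤ 1 := by
  have hr : 0 ≤ r := (norm_nonneg _).trans hxw
  choose q h1 h2 h3 using fun n => pow_slope hx hy hw hxw hyw n
  refine ⟨∑ i ∈ Finset.range (G.natDegree + 1), G.coeff i * q i, ?_, ?_, ?_⟩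
  · rw [eval_eq_sum_range, eval_eq_sum_range, ← Finset.sum_sub_distrib, Finset.mul_sum]
    apply Finset.sum_congr rfl
    intro i _
    rw [← mul_sub, h1 i]; ring
  · have hder : (derivative G).eval w =
        ∑ i ∈ Finset.range (G.natDegree + 1), G.coeff i * ((i : K) * w ^ (i - 1)) := by
      conv_lhs => rw [G.as_sum_range_C_mul_X_pow]
      rw [map_sum, eval_finset_sum]
      apply Finset.sum_congr rfl
      intro i _
      simp [derivative_X_pow, mul_assoc]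
    rw [hder, ← Finset.sum_sub_distrib]
    apply IsUltrametricDist.norm_sum_le_of_forall_le_of_nonneg hr
    intro i _
    rw [← mul_sub, norm_mul]
    calc ‖G.coeff i‖ * ‖q i - (i : K) * w ^ (i - 1)‖ ≤ 1 * r :=
          mul_le_mul (hG i) (h2 i) (norm_nonneg _) zero_le_one
      _ = r := one_mul _
  · apply IsUltrametricDist.norm_sum_le_of_forall_le_of_nonneg zero_le_one
    intro i _
    rw [norm_mul]
    exact mul_le_one₀ (hG i) (norm_nonneg _) (h3 i)

lemma poly_lip (G : K[X]) (hG : ∀ i, ‖G.coeff i‖ ≤ 1) {x y : K} (hx : ‖x‖ ≤ 1)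
    (hy : ‖y‖ ≤ 1) : ‖G.eval x - G.eval y‖ ≤ ‖x - y‖ := by
  obtain ⟨q, h1, _, h3⟩ := poly_slope G hG hx hy hx (r := ‖x - y‖) (by simp)
    (by rw [norm_sub_rev])
  rw [h1, norm_mul]
  exact mul_le_of_le_one_right (norm_nonneg _) h3

lemma poly_eval_le_one (G : K[X]) (hG : ∀ i, ‖G.coeff i‖ ≤ 1) {x : K} (hx : ‖x‖ ≤ 1) :
    ‖G.eval x‖ ≤ 1 := by
  rw [eval_eq_sum_range]
  apply IsUltrametricDist.norm_sum_le_of_forall_le_of_nonneg zero_le_one
  intro i _
  rw [norm_mul]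
  exact mul_le_one₀ (hG i) (norm_nonneg _) (pow_norm_le_one hx i)

end

end Pool.Agent.Work.MP_505b57_nt
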