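import Mathlib
import Pool.Agent.Work.MP_505b57_nt.Defs
import Pool.Agent.Work.MP_505b57_nt.Slope

set_option autoImplicit false

namespace Pool.Agent.Work.MP_505b57_nt

open Polynomial

section

variable {K : Type*} [NormedField K] [IsUltrametricDist K]

/-- polynomial with coefficients of norm at most one -/
def IntPoly (f : K[X]) : Prop := ∀ i, ‖f.coeff i‖ ≤ 1

omit [IsUltrametricDist K] in
lemma IntPoly.C {a : K} (ha : ‖a‖ ≤ 1) : IntPoly (C a : K[X]) := by
  intro i
  rw [coeff_C]
  split_ifs
  · exact ha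
  · simp

omit [IsUltrametricDist K] in
lemma IntPoly.X : IntPoly (X : K[X]) := by
  intro i
  rw [coeff_X]
  split_ifs <;> simp

lemma IntPoly.add {f g : K[X]} (hf : IntPoly f) (hg : IntPoly g) : IntPoly (f + g) := by
  intro i
  rw [coeff_add]
  exact nadd_le (hf i) (hg i)

lemma IntPoly.sub {f g : K[X]} (hf : IntPoly f) (hg : IntPoly g) : IntPoly (f - g) := by
  intro i
  rw [coeff_sub]
  exact norm_sub_le_of_le (hf i) (hg i)

lemma IntPoly.mul {f g : K[X]} (hf : IntPoly f) (hg : IntPoly g) : IntPoly (f * g) := by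
  intro i
  rw [coeff_mul]
  apply IsUltrametricDist.norm_sum_le_of_forall_le_of_nonneg zero_le_one
  intro j _
  rw [norm_mul]
  exact mul_le_one₀ (hf _) (norm_nonneg _) (hg _)

lemma IntPoly.pow {f : K[X]} (hf : IntPoly f) (n : ℕ) : IntPoly (f ^ n) := by
  induction n with
  | zero =>
    rw [pow_zero, ← C_1]
    exact IntPoly.C (by simp)
  | succ n ih => rw [pow_succ]; exact ih.mul hf

lemma IntPoly.sum {ι : Type*} (s : Finset ι) (f : ι → K[X]) (hf : ∀ i ∈ s, IntPoly (f i)) :
    IntPoly (∑ i ∈ s, f i) := by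
  classical
  intro j
  rw [finset_sum_coeff]
  apply IsUltrametricDist.norm_sum_le_of_forall_le_of_nonneg zero_le_one
  intro i hi
  exact hf i hi j

lemma IntPoly.comp {f g : K[X]} (hf : IntPoly f) (hg : IntPoly g) : IntPoly (f.comp g) := by
  rw [comp_eq_sum_left, Polynomial.sum]
  apply IntPoly.sum
  intro i _
  exact (IntPoly.C (hf i)).mul (hg.pow i)

lemma IntPoly.derivative {f : K[X]} (hf : IntPoly f) : IntPoly (derivative f) := by
  intro i
  rw [coeff_derivative, norm_mul]
  refine mul_le_one₀ (hf _) (norm_nonneg _) ?_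
  have : (i : K) + 1 = ((i + 1 : ℕ) : K) := by push_cast; ring
  rw [this]; exact nat_norm_le_one _

/-- `n`-th iterate of `f` as a polynomial -/
noncomputable def iterPoly (f : K[X]) (n : ℕ) : K[X] := (f.comp)^[n] X

omit [IsUltrametricDist K] in
lemma iterPoly_succ (f : K[X]) (n : ℕ) : iterPoly f (n + 1) = f.comp (iterPoly f n) := by
  unfold iterPoly
  rw [Function.iterate_succ_apply']

omit [IsUltrametricDist K] in
lemma iterPoly_eval (f : K[X]) (n : ℕ) (z : K) :
    (iterPoly f n).eval z = (fun x => f.eval x)^[n] z := by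
  unfold iterPoly
  rw [iterate_comp_eval, eval_X]

lemma iterPoly_int {f : K[X]} (hf : IntPoly f) (n : ℕ) : IntPoly (iterPoly f n) := by
  induction n with
  | zero => exact IntPoly.X
  | succ n ih => rw [iterPoly_succ]; exact hf.comp ih

omit [IsUltrametricDist K] in
lemma iterPoly_natDegree (f : K[X]) (n : ℕ) : (iterPoly f n).natDegree = f.natDegree ^ n := by
  induction n with
  | zero => simp [iterPoly]
  | succ n ih => rw [iterPoly_succ, natDegree_comp, ih, pow_succ, mul_comm]

omit [IsUltrametricDist K] in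
/-- chain rule for iterates -/
lemma iterPoly_derivative_eval (f : K[X]) (n : ℕ) (z : K) :
    (derivative (iterPoly f n)).eval z =
      ∏ i ∈ Finset.range n, (derivative f).eval ((fun x => f.eval x)^[i] z) := by
  induction n with
  | zero => simp [iterPoly]
  | succ n ih =>
    rw [iterPoly_succ, derivative_comp, eval_mul, eval_comp, ih, iterPoly_eval,
      Finset.prod_range_succ]

omit [IsUltrametricDist K] in
lemma FiniteOrbit.of_iterate {f : K[X]} {z : K} (i : ℕ)
    (h : FiniteOrbit f ((fun x => f.eval x)^[i] z)) : FiniteOrbit f z := by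
  unfold FiniteOrbit at *
  have h1 : (Set.range fun n : ℕ => (fun x : K => f.eval x)^[n] z) ⊆
      ((fun n : ℕ => (fun x : K => f.eval x)^[n] z) '' (Set.Iio i)) ∪
      (Set.range fun n : ℕ => (fun x : K => f.eval x)^[n] ((fun x : K => f.eval x)^[i] z)) := by
    rintro _ ⟨n, rfl⟩
    by_cases hn : n < i
    · left; exact ⟨n, hn, rfl⟩
    · right
      refine ⟨n - i, ?_⟩
      simp only
      rw [← Function.iterate_add_apply]
      congr 2
      omega
  exact (((Set.finite_Iio i).image _).union h).subset h1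

omit [IsUltrametricDist K] in
lemma FiniteOrbit.iterate {f : K[X]} {z : K} (h : FiniteOrbit f z) (i : ℕ) :
    FiniteOrbit f ((fun x => f.eval x)^[i] z) := by
  unfold FiniteOrbit at *
  apply h.subset
  rintro _ ⟨n, rfl⟩
  exact ⟨n + i, by simp only [Function.iterate_add_apply]⟩

omit [IsUltrametricDist K] in
lemma FiniteOrbit.exists_eq {f : K[X]} {z : K} (h : FiniteOrbit f z) (t : ℕ) (_ht : 1 ≤ t) :
    ∃ a b : ℕ, a < b ∧ ((fun x => f.eval x)^[t])^[a] z = ((fun x => f.eval x)^[t])^[b] z := by
  unfold FiniteOrbit at h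
  have hmaps : ∀ n : ℕ, ((fun x => f.eval x)^[t])^[n] z ∈
      (Set.range fun n : ℕ => (fun x : K => f.eval x)^[n] z) := by
    intro n
    exact ⟨t * n, by simp only [Function.iterate_mul]⟩
  obtain ⟨a, -, b, -, hab, heq⟩ := Set.infinite_univ.exists_ne_map_eq_of_mapsTo
    (f := fun n : ℕ => ((fun x => f.eval x)^[t])^[n] z) (fun n _ => hmaps n) h
  rcases lt_or_gt_of_ne hab with h1 | h1
  · exact ⟨a, b, h1, heq⟩
  · exact ⟨b, a, h1, heq.symm⟩

end

end Pool.Agent.Work.MP_505b57_nt
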