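import Mathlib
import Pool.Agent.Work.MP_505b57_nt.GoodRed
import Pool.Agent.Work.MP_505b57_nt.Slope

set_option autoImplicit false

namespace Pool.Agent.Work.MP_505b57_nt

open Polynomial

section

variable {K : Type*} [NormedField K] [IsUltrametricDist K] [IsAlgClosed K] [CharZero K]

omit [IsUltrametricDist K] [IsAlgClosed K] [CharZero K] in
open Classical in
lemma nearCount_eq_of_gap (s : Multiset K) {r R : ℝ} (hrR : r ≤ R)
    (hgap : ∀ w ∈ s, ¬ (r ≤ ‖w‖ ∧ ‖w‖ < R)) : nearCount s r = nearCount s R := by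
  unfold nearCount
  congr 1
  apply Multiset.filter_congr
  intro w hw
  constructor
  · intro h; exact h.trans_le hrR
  · intro h
    by_contra hlt
    push Not at hlt
    exact hgap w hw ⟨hlt, h⟩

/-- Non-archimedean Rolle: if `F` has no roots of norm in `[R/b, R)` with `b > N`, then
`F'` has at least `N - 1` roots of norm `< R`, `N` the number of roots of `F` of norm `< R`. -/
lemma rolle_count {p : ℕ} (hp : p.Prime) (hN : NatNorm p K) (F : K[X]) (hF : F ≠ 0)
    (hder : derivative F ≠ 0) {r R b : ℝ} (hr : 0 < r) (hb : 1 < b) (hR : R = b * r)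
    (hgap : ∀ w ∈ F.roots, ¬ (r ≤ ‖w‖ ∧ ‖w‖ < R))
    (hbN : (nearCount F.roots R : ℝ) < b) :
    nearCount F.roots R ≤ nearCount (derivative F).roots R + 1 := by
  have hbpos : 0 < b := one_pos.trans hb
  have hRpos : 0 < R := by rw [hR]; positivity
  have hrR : r ≤ R := by rw [hR]; nlinarith
  have hcount := nearCount_eq_of_gap F.roots hrR hgap
  obtain ⟨a0, a1, _⟩ := np_poly r hr F hF
  obtain ⟨b0, b1, _⟩ := np_poly R hRpos (derivative F) hder
  rw [hcount] at a0 a1
  set N := nearCount F.roots R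
  set k := nearCount (derivative F).roots R
  by_contra hlt
  push Not at hlt
  have hN2 : 2 ≤ N := by omega
  have hFN : 0 < ‖F.coeff N‖ := norm_pos_iff.mpr a0
  have h1 := b1 (N - 1)
  rw [coeff_derivative, coeff_derivative] at h1
  have hN1 : N - 1 + 1 = N := by omega
  have hcast : ((N - 1 : ℕ) : K) + 1 = (N : K) := by
    have : ((N - 1 : ℕ) : K) + 1 = ((N - 1 + 1 : ℕ) : K) := by push_cast; ring
    rw [this, hN1]
  rw [hN1, hcast, norm_mul, norm_mul] at h1
  have hk1 : ‖((k : K) + 1)‖ ≤ 1 := by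
    have : (k : K) + 1 = ((k + 1 : ℕ) : K) := by push_cast; ring
    rw [this]; exact nat_norm_le_one _
  have h2 := a1 (k + 1)
  -- combine
  have hNlow : ((N : ℝ))⁻¹ ≤ ‖(N : K)‖ := NatNorm.ge_inv hp hN N (by omega)
  obtain ⟨t, ht⟩ : ∃ t, N = k + 1 + (t + 1) := ⟨N - (k + 1) - 1, by omega⟩
  have h3 : ‖F.coeff (k + 1)‖ ≤ ‖F.coeff N‖ * r ^ (t + 1) := by
    have hrk : 0 < r ^ (k + 1) := by positivity
    have : ‖F.coeff (k + 1)‖ * r ^ (k + 1) ≤ (‖F.coeff N‖ * r ^ (t + 1)) * r ^ (k + 1) := by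
      calc ‖F.coeff (k + 1)‖ * r ^ (k + 1) ≤ ‖F.coeff N‖ * r ^ N := h2
        _ = (‖F.coeff N‖ * r ^ (t + 1)) * r ^ (k + 1) := by
            have : r ^ N = r ^ (t + 1) * r ^ (k + 1) := by
              rw [← pow_add]; congr 1; omega
            rw [this]; ring
    exact le_of_mul_le_mul_right this hrk
  have h4 : ‖F.coeff N‖ * (‖(N : K)‖ * R ^ (t + 1)) * R ^ k ≤
      ‖F.coeff N‖ * r ^ (t + 1) * R ^ k := by
    calc ‖F.coeff N‖ * (‖(N : K)‖ * R ^ (t + 1)) * R ^ k
        = ‖F.coeff N‖ * ‖(N : K)‖ * R ^ (N - 1) := by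
          have : R ^ (N - 1) = R ^ (t + 1) * R ^ k := by
            rw [← pow_add]; congr 1; omega
          rw [this]; ring
      _ ≤ ‖F.coeff (k + 1)‖ * ‖(k : K) + 1‖ * R ^ k := h1
      _ ≤ ‖F.coeff (k + 1)‖ * 1 * R ^ k := by
          apply mul_le_mul_of_nonneg_right _ (by positivity)
          exact mul_le_mul_of_nonneg_left hk1 (norm_nonneg _)
      _ ≤ ‖F.coeff N‖ * r ^ (t + 1) * R ^ k := by
          rw [mul_one]
          exact mul_le_mul_of_nonneg_right h3 (by positivity)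
  have h5 : ‖(N : K)‖ * R ^ (t + 1) ≤ r ^ (t + 1) := by
    have hRk : 0 < R ^ k := by positivity
    have h6 := le_of_mul_le_mul_right h4 hRk
    exact le_of_mul_le_mul_left h6 hFN
  have h7 : ‖(N : K)‖ * b ^ (t + 1) ≤ 1 := by
    rw [hR, mul_pow] at h5
    have hrt : 0 < r ^ (t + 1) := by positivity
    have : (‖(N : K)‖ * b ^ (t + 1)) * r ^ (t + 1) ≤ 1 * r ^ (t + 1) := by
      rw [one_mul]; calc _ = ‖(N : K)‖ * (b ^ (t + 1) * r ^ (t + 1)) := by ring
        _ ≤ _ := h5
    exact le_of_mul_le_mul_right this hrt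
  have h8 : b ≤ b ^ (t + 1) := le_self_pow₀ hb.le (by omega)
  have hNpos : (0 : ℝ) < N := by exact_mod_cast (by omega : 0 < N)
  have h9 : (N : ℝ)⁻¹ * b ≤ 1 := by
    calc (N : ℝ)⁻¹ * b ≤ ‖(N : K)‖ * b ^ (t + 1) :=
          mul_le_mul hNlow h8 hbpos.le (norm_nonneg _)
      _ ≤ 1 := h7
  rw [inv_mul_le_iff₀ hNpos, mul_one] at h9
  linarith

omit [IsUltrametricDist K] [IsAlgClosed K] [CharZero K] in
open Classical in
lemma nearCount_le_card (s : Multiset K) (r : ℝ) : nearCount s r ≤ Multiset.card s :=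
  Multiset.card_le_card (Multiset.filter_le _ _)

/-- if all critical points of norm `< R` are roots of `F`, and `F` has two distinct roots of norm
`< R`, then `F'` has at most `N - 2` roots of norm `< R` -/
lemma crit_count (F : K[X]) (hF : F ≠ 0) {R : ℝ} (y : K) (hy : y ≠ 0)
    (hyR : ‖y‖ < R) (hFy : F.eval y = 0) (hF0 : F.eval 0 = 0)
    (hcrit : ∀ z, (derivative F).eval z = 0 → ‖z‖ < R → F.eval z = 0)
    (hder : derivative F ≠ 0) :
    nearCount (derivative F).roots R + 2 ≤ nearCount F.roots R := by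
  classical
  have hR0 : 0 < R := (norm_nonneg _).trans_lt hyR
  set A := F.roots.filter (fun z => ‖z‖ < R) with hA
  set B := (derivative F).roots.filter (fun z => ‖z‖ < R) with hB
  have hcA : nearCount F.roots R = Multiset.card A := by
    unfold nearCount; rw [hA]
  have hcB : nearCount (derivative F).roots R = Multiset.card B := by
    unfold nearCount; rw [hB]
  rw [hcA, hcB]
  have hsub : ∀ z ∈ B, z ∈ A.toFinset := by
    intro z hz
    rw [hB, Multiset.mem_filter] at hz
    rw [Multiset.mem_toFinset, hA, Multiset.mem_filter]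
    exact ⟨(mem_roots hF).mpr (hcrit z ((mem_roots hder).mp hz.1) hz.2), hz.2⟩
  have h1 : ∑ z ∈ A.toFinset, B.count z = Multiset.card B := Multiset.sum_count_eq_card hsub
  have h2 : ∑ z ∈ A.toFinset, A.count z = Multiset.card A := Multiset.toFinset_sum_count_eq A
  have h3 : ∀ z ∈ A.toFinset, B.count z + 1 ≤ A.count z := by
    intro z hz
    rw [Multiset.mem_toFinset, hA, Multiset.mem_filter] at hz
    rw [hA, hB, Multiset.count_filter_of_pos (p := fun z => ‖z‖ < R) hz.2,
      Multiset.count_filter_of_pos (p := fun z => ‖z‖ < R) hz.2,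
      count_roots, count_roots, derivative_rootMultiplicity_of_root ((mem_roots hF).mp hz.1)]
    have : 0 < rootMultiplicity z F := (rootMultiplicity_pos hF).mpr ((mem_roots hF).mp hz.1)
    omega
  have h4 := Finset.sum_le_sum h3
  rw [Finset.sum_add_distrib, h1, h2, Finset.sum_const, smul_eq_mul, mul_one] at h4
  have h5 : 2 ≤ A.toFinset.card := by
    apply Finset.one_lt_card.mpr
    refine ⟨0, ?_, y, ?_, fun h => hy h.symm⟩
    · rw [Multiset.mem_toFinset, hA, Multiset.mem_filter]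
      exact ⟨(mem_roots hF).mpr hF0, by simpa using hR0⟩
    · rw [Multiset.mem_toFinset, hA, Multiset.mem_filter]
      exact ⟨(mem_roots hF).mpr hFy, hyR⟩
  omega

omit [IsAlgClosed K] [CharZero K] in
lemma factor_X (F : K[X]) (hF0 : F.eval 0 = 0) (hint : ∀ i, ‖F.coeff i‖ ≤ 1) :
    ∃ G : K[X], F = X * G ∧ ∀ i, ‖G.coeff i‖ ≤ 1 := by
  refine ⟨divX F, ?_, ?_⟩
  · have h := X_mul_divX_add F
    rw [coeff_zero_eq_eval_zero, hF0, C_0, add_zero] at h
    exact h.symm
  · intro i; rw [coeff_divX]; exact hint (i + 1)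

/-- root separation lemma, for the nonzero root of minimal norm -/
lemma root_sep_min {p : ℕ} (hp : p.Prime) (hN : NatNorm p K) (δ : ℕ) (F : K[X])
    (hFdeg : F.natDegree ≤ δ) (hint : ∀ i, ‖F.coeff i‖ ≤ 1) (hF0 : F.eval 0 = 0) (hF : F ≠ 0)
    (hcontr : ∀ z : K, ‖z‖ < 1 → z ≠ 0 → ‖F.eval z‖ < ‖z‖)
    (hcrit : ∀ z : K, (derivative F).eval z = 0 → ‖z‖ < 1 →
      ∃ n : ℕ, (fun x => F.eval x)^[n] z = 0)
    (y : K) (hy0 : y ≠ 0) (hy1 : ‖y‖ < 1) (hFy : F.eval y = 0)
    (hmin : ∀ w : K, w ≠ 0 → F.eval w = 0 → ‖y‖ ≤ ‖w‖) :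
    (((2 : ℝ) * δ) ^ (2 * (δ + 1)))⁻¹ ≤ ‖y‖ := by
  classical
  set η : ℝ := ‖y‖ with hη
  have hηpos : 0 < η := norm_pos_iff.mpr hy0
  obtain ⟨G, hFG, hG⟩ := factor_X F hF0 hint
  have hevF : ∀ z, F.eval z = z * G.eval z := by
    intro z; rw [hFG, eval_mul, eval_X]
  have hGy : G.eval y = 0 := by
    have := hevF y
    rw [hFy] at this
    exact (mul_eq_zero.mp this.symm).resolve_left hy0
  have hG0 : ‖G.eval 0‖ ≤ η := by
    have := poly_lip G hG (x := 0) (y := y) (by simp) hy1.le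
    rw [hGy, sub_zero, zero_sub, norm_neg] at this
    exact this
  have hGz : ∀ z : K, ‖z‖ < 1 → ‖G.eval z‖ ≤ max η ‖z‖ := by
    intro z hz
    have h1 := poly_lip G hG (x := z) (y := 0) hz.le (by simp)
    rw [sub_zero] at h1
    have h2 : G.eval z = (G.eval z - G.eval 0) + G.eval 0 := by ring
    rw [h2]
    exact nadd_le (h1.trans (le_max_right _ _)) (hG0.trans (le_max_left _ _))
  -- degree facts: F has two distinct roots
  have hy_mem : y ∈ F.roots := (mem_roots hF).mpr hFy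
  have h0_mem : (0 : K) ∈ F.roots := (mem_roots hF).mpr hF0
  have hcard_roots : F.roots.toFinset.card ≤ δ :=
    (Multiset.toFinset_card_le _).trans ((card_roots' F).trans hFdeg)
  have hdeg1 : F.natDegree ≠ 0 := by
    intro h
    have h2 := card_roots' F
    rw [h] at h2
    have : F.roots = 0 := Multiset.card_eq_zero.mp (Nat.le_zero.mp h2)
    rw [this] at hy_mem
    simp at hy_mem
  have hder : derivative F ≠ 0 := derivative_ne_zero.mpr hdeg1
  have hδ1 : 1 ≤ δ := by omega
  set b : ℝ := 2 * δ with hb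
  have hb1 : 1 < b := by
    have : (1 : ℝ) ≤ δ := by exact_mod_cast hδ1
    rw [hb]; linarith
  have hbpos : 0 < b := one_pos.trans hb1
  by_contra hlt
  push Not at hlt
  -- s = sqrt η
  set s : ℝ := Real.sqrt η with hs
  have hspos : 0 < s := Real.sqrt_pos.mpr hηpos
  have hss : s * s = η := Real.mul_self_sqrt hηpos.le
  have hs1 : s < 1 := by
    by_contra h
    push Not at h
    nlinarith
  have hslt : s < (b ^ (δ + 1))⁻¹ := by
    by_contra h
    push Not at h
    have h1 : (b ^ (δ + 1))⁻¹ * (b ^ (δ + 1))⁻¹ ≤ s * s :=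
      mul_le_mul h h (by positivity) hspos.le
    rw [hss, ← mul_inv, ← pow_add] at h1
    have h2 : δ + 1 + (δ + 1) = 2 * (δ + 1) := by ring
    rw [h2] at h1
    linarith
  -- all critical points of norm < s are roots
  have hzero : ∀ n : ℕ, ∀ u : K, ‖u‖ < η → (fun x => F.eval x)^[n] u = 0 → u = 0 := by
    intro n
    induction n with
    | zero => intro u _ h; simpa using h
    | succ n ih =>
      intro u hu h
      rw [Function.iterate_succ_apply] at h
      by_contra hu0
      have hu1 : ‖u‖ < 1 := hu.trans hy1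
      have h1 := hcontr u hu1 hu0
      have h2 := ih (F.eval u) (h1.trans hu) h
      have h3 := hmin u hu0 h2
      linarith
  have hcs : ∀ z : K, (derivative F).eval z = 0 → ‖z‖ < s → F.eval z = 0 := by
    intro z hz hzs
    have hz1 : ‖z‖ < 1 := hzs.trans hs1
    obtain ⟨n, hn⟩ := hcrit z hz hz1
    rcases n with _ | n
    · simp at hn; rw [hn]; exact hF0
    · rw [Function.iterate_succ_apply] at hn
      apply hzero n _ _ hn
      rw [hevF, norm_mul]
      have h1 := hGz z hz1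
      rcases le_total η ‖z‖ with h2 | h2
      · rw [max_eq_right h2] at h1
        calc ‖z‖ * ‖G.eval z‖ ≤ ‖z‖ * ‖z‖ := mul_le_mul_of_nonneg_left h1 (norm_nonneg _)
          _ < s * s := mul_self_lt_mul_self (norm_nonneg _) hzs
          _ = η := hss
      · rw [max_eq_left h2] at h1
        calc ‖z‖ * ‖G.eval z‖ ≤ ‖z‖ * η := mul_le_mul_of_nonneg_left h1 (norm_nonneg _)
          _ < 1 * η := mul_lt_mul_of_pos_right hz1 hηpos
          _ = η := one_mul _
  -- gap argument
  have hclaim : ∀ k ∈ Finset.range (δ + 1), ∃ w ∈ F.roots.toFinset,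
      s * (b⁻¹) ^ (k + 1) ≤ ‖w‖ ∧ ‖w‖ < s * (b⁻¹) ^ k := by
    intro k hk
    rw [Finset.mem_range] at hk
    by_contra hcon
    push Not at hcon
    set R : ℝ := s * (b⁻¹) ^ k with hR
    set r : ℝ := s * (b⁻¹) ^ (k + 1) with hr
    have hbr : R = b * r := by
      rw [hR, hr, pow_succ]; field_simp
    have hrpos : 0 < r := by rw [hr]; positivity
    have hRs : R ≤ s := by
      rw [hR]
      apply mul_le_of_le_one_right hspos.le
      apply pow_le_one₀ (by positivity)
      exact inv_le_one_of_one_le₀ hb1.le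
    have hyR : η < R := by
      rw [hR, ← hss]
      apply mul_lt_mul_of_pos_left _ hspos
      refine hslt.trans_le ?_
      rw [inv_pow]
      apply inv_anti₀ (by positivity)
      exact pow_le_pow_right₀ hb1.le (by omega)
    have hgap : ∀ w ∈ F.roots, ¬ (r ≤ ‖w‖ ∧ ‖w‖ < R) := by
      intro w hw h
      exact absurd h.2 (not_lt.mpr (hcon w (Multiset.mem_toFinset.mpr hw) h.1))
    have hNb : (nearCount F.roots R : ℝ) < b := by
      have h1 : nearCount F.roots R ≤ δ :=
        (nearCount_le_card _ _).trans ((card_roots' F).trans hFdeg)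
      have h2 : (nearCount F.roots R : ℝ) ≤ δ := by exact_mod_cast h1
      have h3 : (1 : ℝ) ≤ δ := by exact_mod_cast hδ1
      rw [hb]; linarith
    have h1 := rolle_count hp hN F hF hder hrpos hb1 hbr hgap hNb
    have h2 := crit_count F hF y hy0 (hη ▸ hyR) hFy hF0
      (fun z hz hzR => hcs z hz (hzR.trans_le hRs)) hder
    omega
  choose! w hw1 hw2 hw3 using hclaim
  have hinj : Set.InjOn w (Finset.range (δ + 1)) := by
    have key : ∀ i j : ℕ, i ∈ Finset.range (δ + 1) → j ∈ Finset.range (δ + 1) → i < j →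
        w i ≠ w j := by
      intro i j hi hj hij heq
      have h1 := hw2 i hi
      have h2 := hw3 j hj
      rw [heq] at h1
      have h3 : s * b⁻¹ ^ (i + 1) < s * b⁻¹ ^ j := h1.trans_lt h2
      have h4 : b⁻¹ ^ j ≤ b⁻¹ ^ (i + 1) :=
        pow_le_pow_of_le_one (by positivity) (inv_le_one_of_one_le₀ hb1.le) (by omega)
      have h5 : s * b⁻¹ ^ j ≤ s * b⁻¹ ^ (i + 1) := mul_le_mul_of_nonneg_left h4 hspos.le
      linarith
    intro i hi j hj heq
    rcases lt_trichotomy i j with h | h | h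
    · exact absurd heq (key i j hi hj h)
    · exact h
    · exact absurd heq.symm (key j i hj hi h)
  have hmaps : Set.MapsTo w (Finset.range (δ + 1)) (F.roots.toFinset : Set K) :=
    fun i hi => hw1 i hi
  have hcard := Finset.card_le_card_of_injOn w hmaps hinj
  rw [Finset.card_range] at hcard
  omega

/-- root separation lemma -/
theorem root_sep {p : ℕ} (hp : p.Prime) (hN : NatNorm p K) (δ : ℕ) (F : K[X])
    (hFdeg : F.natDegree ≤ δ) (hint : ∀ i, ‖F.coeff i‖ ≤ 1) (hF0 : F.eval 0 = 0) (hF : F ≠ 0)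
    (hcontr : ∀ z : K, ‖z‖ < 1 → z ≠ 0 → ‖F.eval z‖ < ‖z‖)
    (hcrit : ∀ z : K, (derivative F).eval z = 0 → ‖z‖ < 1 →
      ∃ n : ℕ, (fun x => F.eval x)^[n] z = 0)
    (y : K) (hy0 : y ≠ 0) (hy1 : ‖y‖ < 1) (hFy : F.eval y = 0) :
    (((2 : ℝ) * δ) ^ (2 * (δ + 1)))⁻¹ ≤ ‖y‖ := by
  classical
  set T := F.roots.toFinset.filter (fun w => w ≠ 0) with hT
  have hyT : y ∈ T := by
    rw [hT, Finset.mem_filter, Multiset.mem_toFinset]
    exact ⟨(mem_roots hF).mpr hFy, hy0⟩
  obtain ⟨w, hw, hwmin⟩ := T.exists_min_image (fun z => ‖z‖) ⟨y, hyT⟩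
  rw [hT, Finset.mem_filter, Multiset.mem_toFinset] at hw
  have hwy : ‖w‖ ≤ ‖y‖ := hwmin y hyT
  refine le_trans ?_ hwy
  apply root_sep_min hp hN δ F hFdeg hint hF0 hF hcontr hcrit w hw.2 (hwy.trans_lt hy1)
    ((mem_roots hF).mp hw.1)
  intro z hz hFz
  apply hwmin z
  rw [hT, Finset.mem_filter, Multiset.mem_toFinset]
  exact ⟨(mem_roots hF).mpr hFz, hz⟩

end

end Pool.Agent.Work.MP_505b57_nt
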