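import Mathlib
import Pool.Agent.Work.MP_505b57_nt.IntPoly
import Pool.Agent.Work.MP_505b57_nt.RootSep

set_option autoImplicit false

namespace Pool.Agent.Work.MP_505b57_nt

open Polynomial

section

variable {K : Type*} [NormedField K] [IsUltrametricDist K]

lemma slope_nonexp {Φ : K → K} {B : Set K} {a : K} {ε : ℝ} (ha : ‖a‖ ≤ 1) (hε : ε ≤ 1)
    (hs : ∀ u ∈ B, ∀ v ∈ B, ‖Φ u - Φ v - a * (u - v)‖ ≤ ε * ‖u - v‖) :
    ∀ u ∈ B, ∀ v ∈ B, ‖Φ u - Φ v‖ ≤ ‖u - v‖ := by
  intro u hu v hv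
  have h : Φ u - Φ v = (Φ u - Φ v - a * (u - v)) + a * (u - v) := by ring
  rw [h]
  apply nadd_le
  · exact (hs u hu v hv).trans (mul_le_of_le_one_left (norm_nonneg _) hε)
  · rw [norm_mul]; exact mul_le_of_le_one_left (norm_nonneg _) ha

lemma slope_iter {Φ : K → K} {B : Set K} {a : K} {ε : ℝ} (ha : ‖a‖ ≤ 1) (hε0 : 0 ≤ ε)
    (hε : ε ≤ 1) (hB : ∀ u ∈ B, Φ u ∈ B)
    (hs : ∀ u ∈ B, ∀ v ∈ B, ‖Φ u - Φ v - a * (u - v)‖ ≤ ε * ‖u - v‖) (n : ℕ) :
    (∀ u ∈ B, Φ^[n] u ∈ B) ∧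
      ∀ u ∈ B, ∀ v ∈ B, ‖Φ^[n] u - Φ^[n] v - a ^ n * (u - v)‖ ≤ ε * ‖u - v‖ := by
  induction n with
  | zero =>
    refine ⟨fun u hu => by simpa using hu, fun u _ v _ => ?_⟩
    simp only [Function.iterate_zero, id_eq, pow_zero, one_mul, sub_self, norm_zero]
    positivity
  | succ n ih =>
    obtain ⟨ih1, ih2⟩ := ih
    have hne := slope_nonexp (a := a ^ n) (pow_norm_le_one ha n) hε ih2
    refine ⟨fun u hu => ?_, fun u hu v hv => ?_⟩
    · rw [Function.iterate_succ_apply']; exact hB _ (ih1 u hu)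
    · rw [Function.iterate_succ_apply', Function.iterate_succ_apply']
      have h : Φ (Φ^[n] u) - Φ (Φ^[n] v) - a ^ (n + 1) * (u - v)
          = (Φ (Φ^[n] u) - Φ (Φ^[n] v) - a * (Φ^[n] u - Φ^[n] v))
            + a * (Φ^[n] u - Φ^[n] v - a ^ n * (u - v)) := by ring
      rw [h]
      apply nadd_le
      · exact (hs _ (ih1 u hu) _ (ih1 v hv)).trans
          (mul_le_mul_of_nonneg_left (hne u hu v hv) hε0)
      · rw [norm_mul]
        exact (mul_le_of_le_one_left (norm_nonneg _) ha).trans (ih2 u hu v hv)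

/-- a periodic point of a map which is the identity up to a small Lipschitz error is fixed -/
lemma periodic_fixed {p : ℕ} (hp : p.Prime) (hN : NatNorm p K) {B : Set K} {ε : ℝ}
    (hε0 : 0 ≤ ε) (hε : ε < (p : ℝ)⁻¹) (n : ℕ) : ∀ (H : K → K), 1 ≤ n →
    (∀ u ∈ B, H u ∈ B) → (∀ u ∈ B, ∀ v ∈ B, ‖H u - H v - (u - v)‖ ≤ ε * ‖u - v‖) →
    ∀ y ∈ B, H^[n] y = y → H y = y := by
  have hp1 : (1 : ℝ) < p := by exact_mod_cast hp.one_lt
  have hε1 : ε < 1 := hε.trans (inv_lt_one_of_one_lt₀ hp1)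
  induction n using Nat.strong_induction_on with
  | _ n ih =>
    intro H hn hB hs y hy hper
    -- estimate
    have hs' : ∀ u ∈ B, ∀ v ∈ B, ‖H u - H v - 1 * (u - v)‖ ≤ ε * ‖u - v‖ := by
      intro u hu v hv; rw [one_mul]; exact hs u hu v hv
    set b := H y - y with hb
    have hiter := slope_iter (a := (1 : K)) (by simp) hε0 hε1.le hB hs'
    have hdist : ∀ j : ℕ, ‖H^[j] y - y‖ ≤ ‖b‖ := by
      intro j
      induction j with
      | zero => simp
      | succ j ihj =>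
        have h1 := slope_nonexp (a := (1 : K) ^ j) (by simp) hε1.le (hiter j).2
          (H y) (hB y hy) y hy
        rw [← Function.iterate_succ_apply] at h1
        have h2 : H^[j + 1] y - y = (H^[j + 1] y - H^[j] y) + (H^[j] y - y) := by ring
        rw [h2]
        exact nadd_le h1 ihj
    have hest : ∀ j : ℕ, ‖H^[j] y - y - (j : K) * b‖ ≤ ε * ‖b‖ := by
      intro j
      induction j with
      | zero => simp; positivity
      | succ j ihj =>
        have h1 := hs (H^[j] y) ((hiter j).1 y hy) y hy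
        have h2 : H^[j + 1] y - y - ((j + 1 : ℕ) : K) * b
            = (H (H^[j] y) - H y - (H^[j] y - y)) + (H^[j] y - y - (j : K) * b) := by
          rw [Function.iterate_succ_apply', hb]; push_cast; ring
        rw [h2]
        apply nadd_le _ ihj
        exact h1.trans (mul_le_mul_of_nonneg_left (hdist j) hε0)
    have hfinish : ∀ j : ℕ, H^[j] y = y → ε < ‖(j : K)‖ → b = 0 := by
      intro j hj hlt
      have h1 := hest j
      rw [hj, sub_self, zero_sub, norm_neg, norm_mul] at h1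
      by_contra hb0
      have hbpos : 0 < ‖b‖ := norm_pos_iff.mpr hb0
      exact absurd (le_of_mul_le_mul_right h1 hbpos) (not_le.mpr hlt)
    suffices hb0 : b = 0 by rw [hb] at hb0; exact sub_eq_zero.mp hb0
    by_cases hpn : p ∣ n
    · obtain ⟨n', rfl⟩ := hpn
      have hn' : 1 ≤ n' := by
        rcases Nat.eq_zero_or_pos n' with h | h
        · subst h; simp at hn
        · exact h
      have hlt : n' < p * n' := by
        have := hp.two_le; nlinarith
      have h1 := ih n' hlt (H^[p]) hn' (hiter p).1 (fun u hu v hv => by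
        have := (hiter p).2 u hu v hv
        rwa [one_pow, one_mul] at this) y hy (by rw [← Function.iterate_mul]; exact hper)
      apply hfinish p h1
      have : ‖(p : K)‖ = (p : ℝ)⁻¹ := by
        have h2 := hN p hp.ne_zero
        rw [h2]
        haveI := Fact.mk hp
        rw [padicValNat_self, pow_one]
      rw [this]; exact hε
    · apply hfinish n hper
      have h2 := hN n (by omega)
      rw [h2, padicValNat.eq_zero_of_not_dvd hpn, pow_zero, inv_one]
      exact hε1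

/-- pigeonhole property -/
def PH (E : Set K) (Q : ℕ) (ε : ℝ) : Prop :=
  ∀ u : ℕ → K, (∀ i, u i ∈ E) → (∀ i, ‖u i‖ ≤ 1) →
    ∃ i j, i < j ∧ j ≤ Q ∧ ‖u i - u j‖ ≤ ε

lemma pow_sub_one_le {b : K} {ε : ℝ} (hb : ‖b‖ ≤ 1) (h : ‖b - 1‖ ≤ ε) (n : ℕ) :
    ‖b ^ n - 1‖ ≤ ε := by
  have := pow_sub_pow_norm_le hb (y := (1 : K)) (by simp) n
  rw [one_pow] at this
  exact this.trans h

/-- unit powers -/
lemma unit_pow {E : Subring K} {Q : ℕ} {ε : ℝ} (hPH : PH (E : Set K) Q ε) {a : K} (haE : a ∈ E)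
    (ha : ‖a‖ = 1) : ‖a ^ (Nat.factorial Q) - 1‖ ≤ ε := by
  obtain ⟨i, j, hij, hjQ, h⟩ := hPH (fun n => a ^ n) (fun n => pow_mem haE n)
    (fun n => pow_norm_le_one ha.le n)
  have h1 : ‖a ^ (j - i) - 1‖ ≤ ε := by
    have h2 : a ^ i - a ^ j = - (a ^ i * (a ^ (j - i) - 1)) := by
      rw [mul_sub, ← pow_add, mul_one]
      have : i + (j - i) = j := by omega
      rw [this]; ring
    rw [h2, norm_neg, norm_mul, norm_pow, ha, one_pow, one_mul] at h
    exact h
  have hdvd : (j - i) ∣ Nat.factorial Q := Nat.dvd_factorial (by omega) (by omega)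
  obtain ⟨c, hc⟩ := hdvd
  rw [hc, pow_mul]
  exact pow_sub_one_le (pow_norm_le_one ha.le _) h1 c

/-- small elements are uniformly small -/
lemma small_pow {E : Subring K} {Q : ℕ} {ε : ℝ} (hPH : PH (E : Set K) Q ε) {a : K} (haE : a ∈ E)
    (ha : ‖a‖ < 1) : ‖a‖ ^ Q ≤ ε := by
  obtain ⟨i, j, hij, hjQ, h⟩ := hPH (fun n => a ^ n) (fun n => pow_mem haE n)
    (fun n => pow_norm_le_one ha.le n)
  have h2 : a ^ i - a ^ j = a ^ i * (1 - a ^ (j - i)) := by
    rw [mul_sub, ← pow_add, mul_one]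
    have : i + (j - i) = j := by omega
    rw [this]
  rw [h2, norm_mul] at h
  have h3 : ‖(1 : K) - a ^ (j - i)‖ = 1 := by
    rw [norm_sub_eq_of_lt]
    · simp
    · rw [norm_pow, norm_one]
      exact pow_lt_one₀ (norm_nonneg _) ha (by omega)
  rw [h3, mul_one, norm_pow] at h
  exact (pow_le_pow_of_le_one (norm_nonneg _) ha.le (by omega)).trans h

end

end Pool.Agent.Work.MP_505b57_nt
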