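import Mathlib
import Pool.Agent.Work.MP_505b57_nt.Period

set_option autoImplicit false

namespace Pool.Agent.Work.MP_505b57_nt

open Polynomial Module

section

variable {p : ℕ} [hp : Fact p.Prime]
variable {K : Type*} [NormedField K] [NormedAlgebra ℚ_[p] K] [IsUltrametricDist K]
  [Algebra ℤ_[p] K] [IsScalarTower ℤ_[p] ℚ_[p] K]

omit [IsUltrametricDist K] in
lemma norm_algebraMap_int (a : ℤ_[p]) : ‖algebraMap ℤ_[p] K a‖ = ‖a‖ := by
  rw [IsScalarTower.algebraMap_apply ℤ_[p] ℚ_[p] K, norm_algebraMap']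
  rfl

lemma norm_span_le_one (S : Set K) (hS : ∀ x ∈ S, ‖x‖ ≤ 1) (x : K)
    (hx : x ∈ Submodule.span ℤ_[p] S) : ‖x‖ ≤ 1 := by
  induction hx using Submodule.span_induction with
  | mem x h => exact hS x h
  | zero => simp
  | add x y _ _ hx hy => exact nadd_le hx hy
  | smul a x _ hx =>
    rw [Algebra.smul_def, norm_mul, norm_algebraMap_int]
    exact mul_le_one₀ (PadicInt.norm_le_one a) (norm_nonneg _) hx

/-- pigeonhole property for finite dimensional subspaces -/
theorem PH_of_finrank (D : ℕ) (V : Submodule ℚ_[p] K) [FiniteDimensional ℚ_[p] V]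
    (hV : finrank ℚ_[p] V ≤ D) : PH (V : Set K) ((p ^ 2) ^ D) (((p : ℝ) ^ 2)⁻¹) := by
  classical
  intro u huV hu1
  set Q := (p ^ 2) ^ D with hQ
  set S : Set K := u '' (Set.Iic Q) with hS
  have hSfin : S.Finite := (Set.finite_Iic Q).image u
  set M : Submodule ℤ_[p] K := Submodule.span ℤ_[p] S with hM
  have hMfg : M.FG := Submodule.fg_span hSfin
  haveI : Module.Finite ℤ_[p] M := Module.Finite.iff_fg.mpr hMfg
  haveI : Module.IsTorsionFree ℤ_[p] K := by
    have hinj : Function.Injective (algebraMap ℤ_[p] K) := by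
      rw [IsScalarTower.algebraMap_eq ℤ_[p] ℚ_[p] K]
      exact (algebraMap ℚ_[p] K).injective.comp (IsFractionRing.injective ℤ_[p] ℚ_[p])
    exact Module.IsTorsionFree.of_smul_eq_zero (fun a x hax => by
      rw [Algebra.smul_def, mul_eq_zero] at hax
      rcases hax with h | h
      · left; exact hinj (by rw [h, map_zero])
      · right; exact h)
  haveI : Module.Free ℤ_[p] M := Module.free_of_finite_type_torsion_free'
  set n := finrank ℤ_[p] M with hn
  let b : Basis (Fin n) ℤ_[p] M := Module.finBasis ℤ_[p] M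
  -- M ⊆ V
  have hMV : ∀ x ∈ M, x ∈ V := by
    intro x hx
    have h1 : M ≤ V.restrictScalars ℤ_[p] := by
      rw [hM, Submodule.span_le]
      rintro _ ⟨i, _, rfl⟩
      exact huV i
    exact h1 hx
  have hnD : n ≤ D := by
    have hli : LinearIndependent ℤ_[p] (fun l => (b l : K)) := by
      have := b.linearIndependent.map' M.subtype (Submodule.ker_subtype M)
      exact this
    rw [LinearIndependent.iff_fractionRing ℤ_[p] ℚ_[p]] at hli
    have hli2 : LinearIndependent ℚ_[p] (fun l => (⟨(b l : K), hMV _ (b l).2⟩ : V)) := by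
      apply LinearIndependent.of_comp V.subtype
      exact hli
    have := hli2.fintype_card_le_finrank
    rw [Fintype.card_fin] at this
    exact this.trans hV
  have huM : ∀ i, i ≤ Q → u i ∈ M := fun i hi => Submodule.subset_span ⟨i, hi, rfl⟩
  haveI : NeZero (p ^ 2) := ⟨pow_ne_zero 2 hp.out.ne_zero⟩
  let φ : ℕ → (Fin n → ZMod (p ^ 2)) := fun i =>
    if h : i ≤ Q then fun l => PadicInt.toZModPow 2 (b.repr ⟨u i, huM i h⟩ l) else 0
  have hcard : (Finset.univ : Finset (Fin n → ZMod (p ^ 2))).card < (Finset.range (Q + 1)).card := by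
    rw [Finset.card_univ, Fintype.card_fun, ZMod.card, Fintype.card_fin, Finset.card_range]
    have : (p ^ 2) ^ n ≤ (p ^ 2) ^ D := Nat.pow_le_pow_right (Nat.pos_of_ne_zero (NeZero.ne _)) hnD
    omega
  obtain ⟨i, hi, j, hj, hij, heq⟩ := Finset.exists_ne_map_eq_of_card_lt_of_maps_to hcard
    (f := φ) (fun _ _ => Finset.mem_univ _)
  rw [Finset.mem_range] at hi hj
  have key : ∀ i j : ℕ, ∀ (hi : i ≤ Q) (hj : j ≤ Q), φ i = φ j →
      ‖u i - u j‖ ≤ ((p : ℝ) ^ 2)⁻¹ := by
    intro i j hi hj heq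
    have h1 : ∀ l, ∃ c : ℤ_[p], b.repr ⟨u i, huM i hi⟩ l - b.repr ⟨u j, huM j hj⟩ l
        = (p : ℤ_[p]) ^ 2 * c := by
      intro l
      have h2 := congrFun heq l
      simp only [φ, hi, hj, dif_pos] at h2
      rw [← sub_eq_zero, ← map_sub, ← RingHom.mem_ker, PadicInt.ker_toZModPow,
        Ideal.mem_span_singleton] at h2
      exact h2
    choose c hc using h1
    set xi : M := ⟨u i, huM i hi⟩ with hxi
    set xj : M := ⟨u j, huM j hj⟩ with hxj
    have h3 : xi - xj = (p : ℤ_[p]) ^ 2 • ∑ l, c l • b l := by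
      rw [← b.sum_repr (xi - xj), Finset.smul_sum]
      apply Finset.sum_congr rfl
      intro l _
      rw [map_sub, Finsupp.sub_apply, hc l, mul_smul]
    have h4 : u i - u j = algebraMap ℤ_[p] K ((p : ℤ_[p]) ^ 2) * ((∑ l, c l • b l : M) : K) := by
      have := congrArg (Subtype.val) h3
      simpa [Algebra.smul_def] using this
    rw [h4, norm_mul, norm_algebraMap_int, norm_pow, PadicInt.norm_p, inv_pow]
    apply mul_le_of_le_one_right (by positivity)
    apply norm_span_le_one (p := p) S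
    · rintro _ ⟨i, _, rfl⟩
      exact hu1 i
    · exact (∑ l, c l • b l : M).2
  rcases lt_or_gt_of_ne hij with h | h
  · exact ⟨i, j, h, by omega, key i j (by omega) (by omega) heq⟩
  · exact ⟨j, i, h, by omega, key j i (by omega) (by omega) heq.symm⟩

end

end Pool.Agent.Work.MP_505b57_nt
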