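import Mathlib
import Pool.Agent.Work.MP_505b57_nt.Period

set_option autoImplicit false

namespace Pool.Agent.Work.MP_505b57_nt

open Polynomial

section

variable {K : Type*} [NormedField K] [IsUltrametricDist K]

lemma eval_mem_subring (E : Subring K) (f : K[X]) (hf : ∀ i, f.coeff i ∈ E) {x : K} (hx : x ∈ E) :
    f.eval x ∈ E := by
  rw [eval_eq_sum_range]
  exact sum_mem (fun i _ => mul_mem (hf i) (pow_mem hx i))

lemma iter_mem_subring (E : Subring K) (f : K[X]) (hf : ∀ i, f.coeff i ∈ E) {x : K} (hx : x ∈ E)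
    (n : ℕ) : (fun z => f.eval z)^[n] x ∈ E := by
  induction n with
  | zero => simpa using hx
  | succ n ih => rw [Function.iterate_succ_apply']; exact eval_mem_subring E f hf ih

lemma iter_norm_le (f : K[X]) (hf : IntPoly f) {x : K} (hx : ‖x‖ ≤ 1) (n : ℕ) :
    ‖(fun z => f.eval z)^[n] x‖ ≤ 1 := by
  rw [← iterPoly_eval]
  exact poly_eval_le_one _ (iterPoly_int hf n) hx

lemma iter_lip (f : K[X]) (hf : IntPoly f) {x y : K} (hx : ‖x‖ ≤ 1) (hy : ‖y‖ ≤ 1) (n : ℕ) :
    ‖(fun z => f.eval z)^[n] x - (fun z => f.eval z)^[n] y‖ ≤ ‖x - y‖ := by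
  rw [← iterPoly_eval, ← iterPoly_eval]
  exact poly_lip _ (iterPoly_int hf n) hx hy

/-- eventually periodic modulo `ε` -/
lemma approx_period {E : Subring K} {Q : ℕ} {ε : ℝ} (hε : 0 ≤ ε) (hPH : PH (E : Set K) Q ε)
    (f : K[X]) (hfE : ∀ i, f.coeff i ∈ E) (hf : IntPoly f) {x : K} (hxE : x ∈ E) (hx : ‖x‖ ≤ 1) :
    ‖(fun z => f.eval z)^[Nat.factorial Q] ((fun z => f.eval z)^[Q] x)
      - (fun z => f.eval z)^[Q] x‖ ≤ ε := by
  set F : K → K := fun z => f.eval z with hF
  obtain ⟨i, j, hij, hjQ, h⟩ := hPH (fun n => F^[n] x) (fun n => iter_mem_subring E f hfE hxE n)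
    (fun n => iter_norm_le f hf hx n)
  have hstep : ‖F^[j - i] (F^[Q] x) - F^[Q] x‖ ≤ ε := by
    have h1 : F^[j - i] (F^[Q] x) = F^[Q - i] (F^[j] x) := by
      have e : j - i + Q = Q - i + j := by omega
      rw [← Function.iterate_add_apply, e, Function.iterate_add_apply]
    have h2 : F^[Q] x = F^[Q - i] (F^[i] x) := by
      have e : Q = Q - i + i := by omega
      rw [← Function.iterate_add_apply, ← e]
    rw [h1]
    conv_lhs => rw [h2]
    refine (iter_lip f hf (iter_norm_le f hf hx j) (iter_norm_le f hf hx i) _).trans ?_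
    rw [norm_sub_rev]; exact h
  have hmul : ∀ c : ℕ, ‖F^[(j - i) * c] (F^[Q] x) - F^[Q] x‖ ≤ ε := by
    intro c
    induction c with
    | zero => simpa using hε
    | succ c ih =>
      have h3 : F^[(j - i) * (c + 1)] (F^[Q] x) - F^[Q] x
          = (F^[(j - i) * c] (F^[j - i] (F^[Q] x)) - F^[(j - i) * c] (F^[Q] x))
            + (F^[(j - i) * c] (F^[Q] x) - F^[Q] x) := by
        have e : (j - i) * (c + 1) = (j - i) * c + (j - i) := by ring
        rw [e, Function.iterate_add_apply (f := F) ((j - i) * c) (j - i)]; ring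
      rw [h3]
      apply nadd_le _ ih
      refine (iter_lip f hf ?_ (iter_norm_le f hf hx Q) _).trans hstep
      rw [← Function.iterate_add_apply]; exact iter_norm_le f hf hx _
  have hdvd : (j - i) ∣ Nat.factorial Q := Nat.dvd_factorial (by omega) (by omega)
  obtain ⟨c, hc⟩ := hdvd
  rw [hc]; exact hmul c

variable [IsAlgClosed K] [CharZero K]

/-- hitting time bound in an attracting residue cycle -/
lemma hitting {p : ℕ} (hp : p.Prime) (hN : NatNorm p K) {f : K[X]} (hfd : 2 ≤ f.natDegree)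
    (hf : IntPoly f) (hpcf : IsPCF f) (t : ℕ) (ht : 1 ≤ t) {w y : K} (hw : ‖w‖ ≤ 1)
    (hfix : (fun z => f.eval z)^[t] w = w)
    (ha : ‖(derivative (iterPoly f t)).eval w‖ < 1)
    (hyw : y ≠ w) (hyw1 : ‖y - w‖ < 1) (hmap : (fun z => f.eval z)^[t] y = w) :
    (((2 : ℝ) * ((f.natDegree ^ t : ℕ) : ℝ)) ^ (2 * ((f.natDegree ^ t) + 1)))⁻¹ ≤ ‖y - w‖ := by
  set Φ := iterPoly f t with hΦ
  have hΦint : IntPoly Φ := iterPoly_int hf t
  have hΦev : ∀ z, Φ.eval z = (fun z => f.eval z)^[t] z := fun z => iterPoly_eval f t z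
  set G : K[X] := Φ.comp (X + C w) - C w with hG
  have hGev : ∀ z, G.eval z = Φ.eval (z + w) - w := by
    intro z; rw [hG]; simp [eval_comp]
  have hGint : IntPoly G :=
    (hΦint.comp (IntPoly.X.add (IntPoly.C hw))).sub (IntPoly.C hw)
  have hdeg0 : (Φ.comp (X + C w)).natDegree = f.natDegree ^ t := by
    rw [natDegree_comp, natDegree_X_add_C, mul_one, hΦ, iterPoly_natDegree]
  have hGdeg : G.natDegree = f.natDegree ^ t := by
    rw [hG, natDegree_sub_C, hdeg0]
  have hdpos : 1 ≤ f.natDegree ^ t := Nat.one_le_pow _ _ (by omega)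
  have hG0 : G ≠ 0 := by
    intro h
    rw [h, natDegree_zero] at hGdeg
    omega
  have hder : ∀ z, (derivative G).eval z = (derivative Φ).eval (z + w) := by
    intro z; rw [hG]; simp [derivative_comp, eval_comp]
  have hGev0 : G.eval 0 = 0 := by
    rw [hGev, zero_add, hΦev, hfix, sub_self]
  have hcontr : ∀ z : K, ‖z‖ < 1 → z ≠ 0 → ‖G.eval z‖ < ‖z‖ := by
    intro z hz hz0
    obtain ⟨q, h1, h2, _⟩ := poly_slope G hGint (x := z) (y := 0) (w := 0) hz.le (by simp)
      (by simp) (r := ‖z‖) (by simp) (by simp)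
    rw [hGev0, sub_zero, sub_zero] at h1
    rw [h1, norm_mul]
    have hzpos : 0 < ‖z‖ := norm_pos_iff.mpr hz0
    have hq : ‖q‖ < 1 := by
      have h3 : q = (q - (derivative G).eval 0) + (derivative G).eval 0 := by ring
      rw [h3]
      apply nadd_lt (h2.trans_lt hz)
      rw [hder, zero_add]; exact ha
    calc ‖z‖ * ‖q‖ < ‖z‖ * 1 := mul_lt_mul_of_pos_left hq hzpos
      _ = ‖z‖ := mul_one _
  have hGiter : ∀ (n : ℕ) (z : K), (fun x => G.eval x)^[n] z
      = ((fun z => f.eval z)^[t])^[n] (z + w) - w := by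
    intro n z
    induction n with
    | zero => simp
    | succ n ih =>
      rw [Function.iterate_succ_apply', ih, Function.iterate_succ_apply']
      simp only [hGev, hΦev, sub_add_cancel]
  have hcrit : ∀ z : K, (derivative G).eval z = 0 → ‖z‖ < 1 →
      ∃ n : ℕ, (fun x => G.eval x)^[n] z = 0 := by
    intro z hz hz1
    rw [hder, hΦ, iterPoly_derivative_eval, Finset.prod_eq_zero_iff] at hz
    obtain ⟨i, _, hi⟩ := hz
    have hfin : FiniteOrbit f (z + w) := FiniteOrbit.of_iterate i (hpcf _ hi)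
    obtain ⟨a, b, hab, heq⟩ := hfin.exists_eq t ht
    refine ⟨a, ?_⟩
    have h1 : (fun x => G.eval x)^[a] z = (fun x => G.eval x)^[b] z := by
      rw [hGiter, hGiter, heq]
    by_contra hne
    -- norms strictly decrease
    have hlt1 : ∀ n, ‖(fun x => G.eval x)^[n] z‖ < 1 := by
      intro n
      induction n with
      | zero => simpa using hz1
      | succ n ih =>
        rw [Function.iterate_succ_apply']
        by_cases h0 : (fun x => G.eval x)^[n] z = 0
        · simp only [h0, hGev0]; simp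
        · exact (hcontr _ ih h0).trans ih
    have hdec : ∀ c, ‖(fun x => G.eval x)^[a + c + 1] z‖ < ‖(fun x => G.eval x)^[a] z‖ := by
      intro c
      induction c with
      | zero =>
        rw [add_zero, Function.iterate_succ_apply']
        exact hcontr _ (hlt1 a) hne
      | succ c ih =>
        have hstep : ‖(fun x => G.eval x)^[a + (c + 1) + 1] z‖ ≤
            ‖(fun x => G.eval x)^[a + c + 1] z‖ := by
          have : a + (c + 1) + 1 = (a + c + 1) + 1 := by ring
          rw [this, Function.iterate_succ_apply']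
          by_cases h0 : (fun x => G.eval x)^[a + c + 1] z = 0
          · simp only [h0, hGev0]; simp
          · exact (hcontr _ (hlt1 _) h0).le
        exact hstep.trans_lt ih
    have h2 := hdec (b - a - 1)
    have h3 : a + (b - a - 1) + 1 = b := by omega
    rw [h3, ← h1] at h2
    exact lt_irrefl _ h2
  have hyG : G.eval (y - w) = 0 := by
    rw [hGev, sub_add_cancel, hΦev, hmap, sub_self]
  have := root_sep hp hN (f.natDegree ^ t) G hGdeg.le hGint hGev0 hG0 hcontr hcrit (y - w)
    (sub_ne_zero.mpr hyw) hyw1 hyG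
  exact_mod_cast this

/-- Uniform bound for preperiod and period. -/
theorem uniform_bound {p : ℕ} (hp : p.Prime) (hN : NatNorm p K) (d Q : ℕ) (hd : 2 ≤ d)
    (hQ : 1 ≤ Q) :
    ∃ M N : ℕ, 1 ≤ N ∧ ∀ (E : Subring K), PH (E : Set K) Q (((p : ℝ) ^ 2)⁻¹) →
      ∀ f : K[X], f.natDegree = d → (∀ i, f.coeff i ∈ E) → IntPoly f → IsPCF f →
      ∀ x ∈ E, ‖x‖ ≤ 1 → FiniteOrbit f x →
        (fun z => f.eval z)^[M + N] x = (fun z => f.eval z)^[M] x := by
  set ε : ℝ := ((p : ℝ) ^ 2)⁻¹ with hεdef
  have hp1 : (1 : ℝ) < p := by exact_mod_cast hp.one_lt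
  have hppos : (0 : ℝ) < p := one_pos.trans hp1
  have hε0 : 0 < ε := by rw [hεdef]; positivity
  have hεp : ε < (p : ℝ)⁻¹ := by
    rw [hεdef]
    apply inv_strictAnti₀ hppos
    nlinarith
  have hε1 : ε < 1 := hεp.trans (inv_lt_one_of_one_lt₀ hp1)
  set t1 := Nat.factorial Q with ht1
  have ht1pos : 1 ≤ t1 := Nat.factorial_pos Q
  set ρ : ℝ := (((2 : ℝ) * ((d ^ t1 : ℕ) : ℝ)) ^ (2 * ((d ^ t1) + 1)))⁻¹ with hρ
  have hρpos : 0 < ρ := by
    rw [hρ]
    have : (0 : ℝ) < ((d ^ t1 : ℕ) : ℝ) := by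
      have h : 0 < d ^ t1 := Nat.pow_pos (by omega)
      exact_mod_cast h
    positivity
  obtain ⟨L, hL⟩ := exists_pow_lt_of_lt_one hρpos hε1
  set n0 := Q * L + 1 with hn0
  refine ⟨Q + t1 * n0, t1 * t1, by nlinarith, ?_⟩
  intro E hPH f hfd hfE hf hpcf x hxE hx hfin
  set F : K → K := fun z => f.eval z with hF
  set y := F^[Q] x with hy
  have hyE : y ∈ E := iter_mem_subring E f hfE hxE Q
  have hy1 : ‖y‖ ≤ 1 := iter_norm_le f hf hx Q
  set Φ := iterPoly f t1 with hΦ
  have hΦint : IntPoly Φ := iterPoly_int hf t1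
  have hΦev : ∀ z, Φ.eval z = F^[t1] z := fun z => iterPoly_eval f t1 z
  set a := (derivative Φ).eval y with ha
  have hder_mem : ∀ i, (derivative f).coeff i ∈ E := by
    intro i
    rw [coeff_derivative]
    refine mul_mem (hfE _) (add_mem ?_ (one_mem E))
    exact natCast_mem E i
  have haE : a ∈ E := by
    rw [ha, hΦ, iterPoly_derivative_eval]
    exact prod_mem (fun i _ => eval_mem_subring E _ hder_mem (iter_mem_subring E f hfE hyE i))
  have ha1 : ‖a‖ ≤ 1 := poly_eval_le_one _ hΦint.derivative hy1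
  have happ : ‖F^[t1] y - y‖ ≤ ε := approx_period hε0.le hPH f hfE hf hxE hx
  -- the ball
  set B : Set K := {u | ‖u - y‖ ≤ ε} with hB
  have hBy : y ∈ B := by simp [hB, hε0.le]
  have hB1 : ∀ u ∈ B, ‖u‖ ≤ 1 := by
    intro u hu
    have : u = (u - y) + y := by ring
    rw [this]
    exact nadd_le (le_trans hu hε1.le) hy1
  have hslope : ∀ u ∈ B, ∀ v ∈ B, ‖F^[t1] u - F^[t1] v - a * (u - v)‖ ≤ ε * ‖u - v‖ := by
    intro u hu v hv
    obtain ⟨q, h1, h2, _⟩ := poly_slope Φ hΦint (hB1 u hu) (hB1 v hv) hy1 hu hv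
    rw [← hΦev, ← hΦev, h1]
    have : (u - v) * q - a * (u - v) = (u - v) * (q - a) := by ring
    rw [this, norm_mul, mul_comm]
    exact mul_le_mul_of_nonneg_right h2 (norm_nonneg _)
  have hBmap : ∀ u ∈ B, F^[t1] u ∈ B := by
    intro u hu
    have h1 := slope_nonexp ha1 hε1.le hslope u hu y hBy
    have h2 : F^[t1] u - y = (F^[t1] u - F^[t1] y) + (F^[t1] y - y) := by ring
    show ‖F^[t1] u - y‖ ≤ ε
    rw [h2]
    exact nadd_le (h1.trans hu) happ
  have hfiny : FiniteOrbit f y := hfin.iterate Q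
  rcases lt_or_eq_of_le ha1 with hlt | heq
  · -- attracting case
    set κ := max ‖a‖ ε with hκ
    have hκ1 : κ < 1 := max_lt hlt hε1
    have hκ0 : 0 ≤ κ := hε0.le.trans (le_max_right _ _)
    have hκQ : κ ^ Q ≤ ε := by
      rcases max_choice ‖a‖ ε with h | h
      · rw [hκ, h]; exact small_pow hPH haE hlt
      · rw [hκ, h]
        calc ε ^ Q ≤ ε ^ 1 := pow_le_pow_of_le_one hε0.le hε1.le hQ
          _ = ε := pow_one _
    have hcontr : ∀ u ∈ B, ∀ v ∈ B, ‖F^[t1] u - F^[t1] v‖ ≤ κ * ‖u - v‖ := by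
      intro u hu v hv
      have h : F^[t1] u - F^[t1] v = (F^[t1] u - F^[t1] v - a * (u - v)) + a * (u - v) := by ring
      rw [h]
      apply nadd_le
      · exact (hslope u hu v hv).trans
          (mul_le_mul_of_nonneg_right (le_max_right _ _) (norm_nonneg _))
      · rw [norm_mul]
        exact mul_le_mul_of_nonneg_right (le_max_left _ _) (norm_nonneg _)
    have hBiter : ∀ n : ℕ, ∀ u ∈ B, (F^[t1])^[n] u ∈ B := by
      intro n
      induction n with
      | zero => intro u hu; simpa using hu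
      | succ n ih => intro u hu; rw [Function.iterate_succ_apply']; exact hBmap _ (ih u hu)
    have hciter : ∀ n : ℕ, ∀ u ∈ B, ∀ v ∈ B, ‖(F^[t1])^[n] u - (F^[t1])^[n] v‖
        ≤ κ ^ n * ‖u - v‖ := by
      intro n
      induction n with
      | zero => intro u _ v _; simp
      | succ n ih =>
        intro u hu v hv
        rw [Function.iterate_succ_apply', Function.iterate_succ_apply']
        calc _ ≤ κ * ‖(F^[t1])^[n] u - (F^[t1])^[n] v‖ :=
              hcontr _ (hBiter n u hu) _ (hBiter n v hv)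
          _ ≤ κ * (κ ^ n * ‖u - v‖) := mul_le_mul_of_nonneg_left (ih u hu v hv) hκ0
          _ = κ ^ (n + 1) * ‖u - v‖ := by ring
    obtain ⟨α, β, hαβ, heqαβ⟩ := hfiny.exists_eq t1 ht1pos
    -- the fixed point
    have hexfix : ∃ n : ℕ, F^[t1] ((F^[t1])^[n] y) = (F^[t1])^[n] y := by
      refine ⟨α, ?_⟩
      set w := (F^[t1])^[α] y with hw
      have hwB : w ∈ B := hBiter α y hBy
      have hper : (F^[t1])^[β - α] w = w := by
        rw [hw, ← Function.iterate_add_apply]
        have : β - α + α = β := by omega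
        rw [this]; exact heqαβ.symm
      have h1 := hciter (β - α) (F^[t1] w) (hBmap w hwB) w hwB
      rw [← Function.iterate_succ_apply, Function.iterate_succ_apply', hper] at h1
      by_contra hne
      have hpos : 0 < ‖F^[t1] w - w‖ := norm_pos_iff.mpr (sub_ne_zero.mpr hne)
      have h2 : κ ^ (β - α) < 1 := pow_lt_one₀ hκ0 hκ1 (by omega)
      have h3 : κ ^ (β - α) * ‖F^[t1] w - w‖ < 1 * ‖F^[t1] w - w‖ :=
        mul_lt_mul_of_pos_right h2 hpos
      linarith
    classical
    have hfound := Nat.find_spec hexfix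
    set n := Nat.find hexfix with hn
    set w := (F^[t1])^[n] y with hw
    have hwB : w ∈ B := hBiter n y hBy
    have hnle : n ≤ n0 := by
      by_contra hgt
      push Not at hgt
      obtain ⟨n', hn'⟩ : ∃ n', n = n' + 1 := ⟨n - 1, by omega⟩
      set y' := (F^[t1])^[n'] y with hy'
      have hy'B : y' ∈ B := hBiter n' y hBy
      have hmap : F^[t1] y' = w := by
        rw [hy', hw, hn', Function.iterate_succ_apply']
      have hy'w : y' ≠ w := by
        intro h
        have := Nat.find_min hexfix (m := n') (by omega)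
        apply this
        rw [← hy', hmap, h]
      have hdist : ‖y' - w‖ ≤ κ ^ n' := by
        have hwfix : (F^[t1])^[n'] w = w := by
          have : ∀ c : ℕ, (F^[t1])^[c] w = w := by
            intro c
            induction c with
            | zero => rfl
            | succ c ih => rw [Function.iterate_succ_apply', ih]; exact hfound
          exact this n'
        have h1 := hciter n' y hBy w hwB
        rw [hwfix] at h1
        have h2 : ‖y - w‖ ≤ 1 := norm_sub_le_of_le hy1 (hB1 w hwB)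
        calc ‖y' - w‖ ≤ κ ^ n' * ‖y - w‖ := h1
          _ ≤ κ ^ n' * 1 := mul_le_mul_of_nonneg_left h2 (by positivity)
          _ = κ ^ n' := mul_one _
      have hn'1 : Q * L ≤ n' := by omega
      have hsmall : ‖y' - w‖ < ρ := by
        calc ‖y' - w‖ ≤ κ ^ n' := hdist
          _ ≤ κ ^ (Q * L) := pow_le_pow_of_le_one hκ0 hκ1.le hn'1
          _ = (κ ^ Q) ^ L := by rw [pow_mul]
          _ ≤ ε ^ L := pow_le_pow_left₀ (by positivity) hκQ L
          _ < ρ := hL
      have haw : ‖(derivative Φ).eval w‖ < 1 := by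
        have h1 := poly_lip (derivative Φ) hΦint.derivative (hB1 w hwB) hy1
        have h2 : (derivative Φ).eval w = ((derivative Φ).eval w - (derivative Φ).eval y) + a := by
          rw [ha]; ring
        rw [h2]
        exact nadd_lt ((h1.trans hwB).trans_lt hε1) hlt
      have hy'w1 : ‖y' - w‖ < 1 := by
        have h2 : y' - w = (y' - y) - (w - y) := by ring
        rw [h2]
        exact norm_sub_lt_of_lt (lt_of_le_of_lt hy'B hε1) (lt_of_le_of_lt hwB hε1)
      have := hitting hp hN (by omega) hf hpcf t1 ht1pos (hB1 w hwB) hfound haw hy'w hy'w1 hmap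
      rw [hfd] at this
      exact absurd (this.trans_lt hsmall) (lt_irrefl _)
    -- conclude
    have hfixall : ∀ c : ℕ, (F^[t1])^[n + c] y = w := by
      intro c
      induction c with
      | zero => rfl
      | succ c ih =>
        rw [← add_assoc, Function.iterate_succ_apply', ih]; exact hfound
    have e1 : F^[Q + t1 * n0] x = w := by
      have h1 : Q + t1 * n0 = t1 * n0 + Q := by ring
      rw [h1, Function.iterate_add_apply, Function.iterate_mul]
      obtain ⟨c, hc⟩ : ∃ c, n0 = n + c := ⟨n0 - n, by omega⟩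
      rw [hc]; exact hfixall c
    have e2 : F^[Q + t1 * n0 + t1 * t1] x = w := by
      have h1 : Q + t1 * n0 + t1 * t1 = t1 * (n0 + t1) + Q := by ring
      rw [h1, Function.iterate_add_apply, Function.iterate_mul]
      obtain ⟨c, hc⟩ : ∃ c, n0 + t1 = n + c := ⟨n0 + t1 - n, by omega⟩
      rw [hc]; exact hfixall c
    rw [e1, e2]
  · -- indifferent case
    have hpow := unit_pow hPH haE heq
    obtain ⟨g1, g2⟩ := slope_iter ha1 hε0.le hε1.le hBmap hslope t1
    set H : K → K := (F^[t1])^[t1] with hH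
    have hHs : ∀ u ∈ B, ∀ v ∈ B, ‖H u - H v - (u - v)‖ ≤ ε * ‖u - v‖ := by
      intro u hu v hv
      have h1 : H u - H v - (u - v) = (H u - H v - a ^ t1 * (u - v)) + (a ^ t1 - 1) * (u - v) := by
        ring
      rw [h1]
      apply nadd_le (g2 u hu v hv)
      rw [norm_mul]
      exact mul_le_mul_of_nonneg_right hpow (norm_nonneg _)
    have hHiso : ∀ u ∈ B, ∀ v ∈ B, H u = H v → u = v := by
      intro u hu v hv h
      have h1 := hHs u hu v hv
      rw [h, sub_self, zero_sub, norm_neg] at h1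
      by_contra hne
      have hpos : 0 < ‖u - v‖ := norm_pos_iff.mpr (sub_ne_zero.mpr hne)
      nlinarith
    have hHiter : ∀ n : ℕ, ∀ u ∈ B, H^[n] u ∈ B := by
      intro n
      induction n with
      | zero => intro u hu; simpa using hu
      | succ n ih => intro u hu; rw [Function.iterate_succ_apply']; exact g1 _ (ih u hu)
    have hHeq : H = F^[t1 * t1] := by rw [hH, ← Function.iterate_mul]
    obtain ⟨α, β, hαβ, heqαβ⟩ := hfiny.exists_eq (t1 * t1) (by nlinarith)
    rw [← hF, ← hHeq] at heqαβ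
    have hinj : ∀ c : ℕ, ∀ u ∈ B, ∀ v ∈ B, H^[c] u = H^[c] v → u = v := by
      intro c
      induction c with
      | zero => intro u _ v _ h; simpa using h
      | succ c ih =>
        intro u hu v hv h
        rw [Function.iterate_succ_apply', Function.iterate_succ_apply'] at h
        exact ih u hu v hv (hHiso _ (hHiter c u hu) _ (hHiter c v hv) h)
    have hper : H^[β - α] y = y := by
      have h1 : H^[β] y = H^[α] (H^[β - α] y) := by
        rw [← Function.iterate_add_apply]; congr 2; omega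
      rw [h1] at heqαβ
      exact (hinj α _ hBy _ (hHiter _ y hBy) heqαβ).symm
    have hfixed : H y = y :=
      periodic_fixed hp hN hε0.le hεp (β - α) H (by omega) g1 hHs y hBy hper
    have e1 : F^[Q + t1 * n0 + t1 * t1] x = F^[t1 * n0] (F^[t1 * t1] (F^[Q] x)) := by
      have h3 : Q + t1 * n0 + t1 * t1 = t1 * n0 + (t1 * t1 + Q) := by ring
      rw [h3, Function.iterate_add_apply, Function.iterate_add_apply]
    have e2 : F^[Q + t1 * n0] x = F^[t1 * n0] (F^[Q] x) := by
      have h4 : Q + t1 * n0 = t1 * n0 + Q := by ring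
      rw [h4, Function.iterate_add_apply]
    rw [e1, e2, ← hy, ← hHeq, hfixed]

end

end Pool.Agent.Work.MP_505b57_nt
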