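import Mathlib
import Pool.Agent.Work.MP_505b57_nt.GoodRed2
import Pool.Agent.Work.MP_505b57_nt.Uniform
import Pool.Agent.Work.MP_505b57_nt.Pigeon
import Pool.Agent.Work.MP_505b57_nt.Bounded
import Pool.Agent.Work.MP_505b57_nt.Galois
import Pool.Agent.Work.MP_505b57_nt.Norm
import Pool.Agent.Work.MP_505b57_nt.Param

set_option autoImplicit false

namespace Pool.Agent.Work.MP_505b57_nt

open Polynomial Module

section

lemma natNorm_padicAlgCl (p : ℕ) [hp : Fact p.Prime] : NatNorm p (PadicAlgCl p) := by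
  intro n hn
  have h1 : ‖((n : ℚ_[p]) : PadicAlgCl p)‖ = ‖(n : ℚ_[p])‖ := PadicAlgCl.norm_extends p _
  have h2 : ((n : ℚ_[p]) : PadicAlgCl p) = (n : PadicAlgCl p) := by
    show algebraMap ℚ_[p] (PadicAlgCl p) (n : ℚ_[p]) = (n : PadicAlgCl p)
    exact map_natCast _ n
  rw [← h2, h1]
  have h3 : (n : ℚ_[p]) = ((n : ℚ) : ℚ_[p]) := by norm_cast
  rw [h3, Padic.eq_padicNorm, padicNorm.eq_zpow_of_nonzero (by exact_mod_cast hn)]
  simp

/-- monotonicity of the pigeonhole property on smaller sets -/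
lemma PH.subset {K : Type*} [NormedField K] {E E' : Set K} {Q : ℕ} {ε : ℝ} (h : PH E' Q ε)
    (hEE' : E ⊆ E') : PH E Q ε :=
  fun u hu hu1 => h u (fun i => hEE' (hu i)) hu1

lemma coeff_mem_adjoin {F K : Type*} [Field F] [Field K] [Algebra F K] (f : K[X]) (c : K) (i : ℕ) :
    f.coeff i ∈ IntermediateField.adjoin F ((f.coeffs : Set K) ∪ {c}) := by
  by_cases h : f.coeff i = 0
  · rw [h]; exact zero_mem _
  · apply IntermediateField.subset_adjoin
    left
    exact coeff_mem_coeffs h

variable (p : ℕ) [hp : Fact p.Prime]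

/-- Uniform equation for all critical points of normalized PCF polynomials with Galois-stable
class, in degree `d = m p^k`, `m < p`. -/
theorem uniform_for_classes (d m k : ℕ) (hd : 2 ≤ d) (hm1 : 1 ≤ m) (hmp : m < p)
    (hdm : d = m * p ^ k) :
    ∃ M N : ℕ, 1 ≤ N ∧ ∀ f : (PadicAlgCl p)[X], f.Monic → f.natDegree = d → f.eval 0 = 0 →
      IsPCF f →
      (∀ σ : PadicAlgCl p ≃ₐ[ℚ_[p]] PadicAlgCl p, AffConj f (f.map (σ : PadicAlgCl p →+* PadicAlgCl p))) →
      ∀ c : PadicAlgCl p, (derivative f).eval c = 0 →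
        (fun z => f.eval z)^[M + N] c = (fun z => f.eval z)^[M] c := by
  have hN := natNorm_padicAlgCl p
  have hQ : 1 ≤ (p ^ 2) ^ (d ^ 3) := Nat.one_le_pow _ _ (Nat.pow_pos hp.out.pos)
  obtain ⟨M, N, hN1, huni⟩ := uniform_bound (K := PadicAlgCl p) hp.out hN d ((p ^ 2) ^ (d ^ 3)) hd hQ
  refine ⟨M, N, hN1, ?_⟩
  intro f hf hfd h0 hpcf hgal c hc
  obtain ⟨hroots, hcrit⟩ := good_reduction hp.out hN hm1 hmp f hf (by rw [hfd, hdm]) (by omega) h0 hpcf
  have hder : derivative f ≠ 0 := by rw [derivative_ne_zero]; omega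
  have hc1 : ‖c‖ ≤ 1 := hcrit c ((mem_roots hder).mpr hc)
  have hint : IntPoly f := by
    intro i
    have := coeff_le_lead f hroots i
    rwa [hf.leadingCoeff, norm_one] at this
  obtain ⟨hfin, hrank⟩ := finrank_coeff_crit (F := ℚ_[p]) f hf (by omega) h0 hgal c hc
  rw [hfd] at hrank
  set E := IntermediateField.adjoin ℚ_[p] ((f.coeffs : Set (PadicAlgCl p)) ∪ {c}) with hE
  have hPH : PH ((E.toSubalgebra.toSubmodule : Submodule ℚ_[p] (PadicAlgCl p)) : Set (PadicAlgCl p))
      ((p ^ 2) ^ (d ^ 3)) (((p : ℝ) ^ 2)⁻¹) := by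
    haveI : FiniteDimensional ℚ_[p] (E.toSubalgebra.toSubmodule : Submodule ℚ_[p] (PadicAlgCl p)) := hfin
    exact PH_of_finrank (p := p) (d ^ 3) _ hrank
  have hPH' : PH ((E.toSubalgebra.toSubring : Subring (PadicAlgCl p)) : Set (PadicAlgCl p))
      ((p ^ 2) ^ (d ^ 3)) (((p : ℝ) ^ 2)⁻¹) := hPH.subset (fun x hx => hx)
  have hcE : c ∈ E := IntermediateField.subset_adjoin _ _ (Or.inr rfl)
  exact huni E.toSubalgebra.toSubring hPH' f hfd (fun i => coeff_mem_adjoin f c i) hint hpcf c hcE hc1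
    (hpcf c hc)

/-- evaluation of iterates commutes with specialization -/
lemma map_iterate_eval {A B : Type*} [CommRing A] [CommRing B] (φ : A →+* B) (f : A[X]) (n : ℕ)
    (z : A) : φ ((fun x => f.eval x)^[n] z) = (fun x => (f.map φ).eval x)^[n] (φ z) := by
  induction n with
  | zero => rfl
  | succ n ih =>
    rw [Function.iterate_succ_apply', Function.iterate_succ_apply', ← ih, eval_map, eval₂_at_apply]

/-- For given `M`, `N` there are only finitely many normalized polynomials of degree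
`d = m p^k` all of whose critical points satisfy `f^(M+N)(c) = f^M(c)`. -/
theorem finite_locus (n m k M N : ℕ) (hn : 1 ≤ n) (hm1 : 1 ≤ m) (hmp : m < p)
    (hdm : n + 1 = m * p ^ k) (hN1 : 1 ≤ N) :
    {c : Fin n → PadicAlgCl p | ∀ i, (fun z => (polyOf (K := PadicAlgCl p) c).eval z)^[M + N] (c i)
      = (fun z => (polyOf (K := PadicAlgCl p) c).eval z)^[M] (c i)}.Finite := by
  classical
  have hN := natNorm_padicAlgCl p
  let fgen : (MvPolynomial (Fin n) (PadicAlgCl p))[X] :=
    polyOf (K := PadicAlgCl p) (fun i => (MvPolynomial.X i : MvPolynomial (Fin n) (PadicAlgCl p)))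
  let eqn : Fin n → MvPolynomial (Fin n) (PadicAlgCl p) := fun i =>
    (fun z => fgen.eval z)^[M + N] (MvPolynomial.X i) - (fun z => fgen.eval z)^[M] (MvPolynomial.X i)
  have hev : ∀ (c : Fin n → PadicAlgCl p) (i : Fin n), MvPolynomial.eval c (eqn i) =
      (fun z => (polyOf (K := PadicAlgCl p) c).eval z)^[M + N] (c i)
      - (fun z => (polyOf (K := PadicAlgCl p) c).eval z)^[M] (c i) := by
    intro c i
    have hmap : fgen.map (MvPolynomial.eval c : MvPolynomial (Fin n) (PadicAlgCl p) →+* PadicAlgCl p)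
        = polyOf (K := PadicAlgCl p) c := by
      have h1 := polyOf_map (K := PadicAlgCl p)
        (MvPolynomial.aeval c : MvPolynomial (Fin n) (PadicAlgCl p) →ₐ[PadicAlgCl p] PadicAlgCl p)
        (fun i => (MvPolynomial.X i : MvPolynomial (Fin n) (PadicAlgCl p)))
      have h2 : (fun i => (MvPolynomial.aeval c : MvPolynomial (Fin n) (PadicAlgCl p) →ₐ[PadicAlgCl p]
          PadicAlgCl p) (MvPolynomial.X i)) = c := by
        funext i; simp
      rw [h2] at h1
      have h3 : ((MvPolynomial.aeval c : MvPolynomial (Fin n) (PadicAlgCl p) →ₐ[PadicAlgCl p]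
          PadicAlgCl p) : MvPolynomial (Fin n) (PadicAlgCl p) →+* PadicAlgCl p)
          = (MvPolynomial.eval c) := by
        apply MvPolynomial.ringHom_ext
        · intro r; simp
        · intro i; simp
      rw [h3] at h1
      exact h1
    show MvPolynomial.eval c ((fun z => fgen.eval z)^[M + N] (MvPolynomial.X i)
      - (fun z => fgen.eval z)^[M] (MvPolynomial.X i)) = _
    rw [map_sub, map_iterate_eval, map_iterate_eval, hmap, MvPolynomial.eval_X]
  have hset : {c : Fin n → PadicAlgCl p | ∀ i,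
      (fun z => (polyOf (K := PadicAlgCl p) c).eval z)^[M + N] (c i)
      = (fun z => (polyOf (K := PadicAlgCl p) c).eval z)^[M] (c i)}
      = {c : Fin n → PadicAlgCl p | ∀ f ∈ Set.range eqn, MvPolynomial.eval c f = 0} := by
    ext c
    constructor
    · rintro h _ ⟨i, rfl⟩
      rw [hev, sub_eq_zero]
      exact h i
    · intro h i
      have := h _ ⟨i, rfl⟩
      rw [hev, sub_eq_zero] at this
      exact this
  rw [hset]
  apply finite_of_bounded
  intro c hc i
  -- the polynomial is PCF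
  have heq : ∀ i, (fun z => (polyOf (K := PadicAlgCl p) c).eval z)^[M + N] (c i)
      = (fun z => (polyOf (K := PadicAlgCl p) c).eval z)^[M] (c i) := by
    intro i
    have := hc _ ⟨i, rfl⟩
    rw [hev, sub_eq_zero] at this
    exact this
  have hpcf : IsPCF (polyOf (K := PadicAlgCl p) c) := by
    intro z hz
    rw [polyOf_critical] at hz
    obtain ⟨j, rfl⟩ := hz
    unfold FiniteOrbit
    set F : PadicAlgCl p → PadicAlgCl p := fun z => (polyOf (K := PadicAlgCl p) c).eval z with hF
    have hper : ∀ t : ℕ, F^[M + N + t] (c j) = F^[M + t] (c j) := by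
      intro t
      have e1 : M + N + t = t + (M + N) := by ring
      have e2 : M + t = t + M := by ring
      rw [e1, e2, Function.iterate_add_apply, Function.iterate_add_apply (f := F) t M, heq j]
    have hred : ∀ t : ℕ, ∃ s < M + N, F^[t] (c j) = F^[s] (c j) := by
      intro t
      induction t using Nat.strong_induction_on with
      | _ t ih =>
        by_cases ht : t < M + N
        · exact ⟨t, ht, rfl⟩
        · obtain ⟨s, hs, hst⟩ := ih (t - N) (by omega)
          refine ⟨s, hs, ?_⟩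
          rw [← hst]
          have := hper (t - (M + N))
          have e1 : M + N + (t - (M + N)) = t := by omega
          have e2 : M + (t - (M + N)) = t - N := by omega
          rw [e1, e2] at this
          exact this
    apply ((Set.finite_Iio (M + N)).image (fun s => F^[s] (c j))).subset
    rintro _ ⟨t, rfl⟩
    obtain ⟨s, hs, hst⟩ := hred t
    exact ⟨s, hs, hst.symm⟩
  obtain ⟨_, hcrit⟩ := good_reduction hp.out hN hm1 hmp (polyOf (K := PadicAlgCl p) c)
    (polyOf_monic c) (by rw [polyOf_natDegree, hdm]) (by rw [polyOf_natDegree]; omega)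
    (polyOf_eval_zero c) hpcf
  apply hcrit
  have hder : derivative (polyOf (K := PadicAlgCl p) c) ≠ 0 := by
    rw [derivative_ne_zero, polyOf_natDegree]; omega
  rw [mem_roots hder]
  exact (polyOf_critical c _).mpr ⟨i, rfl⟩

/-- **Main theorem**: finiteness of `P_d(ℚ_p) ∩ PCF` for `d = m p^k`, `1 ≤ m < p`. -/
theorem finite_PCF (d m k : ℕ) (hd : 2 ≤ d) (hm1 : 1 ≤ m) (hmp : m < p) (hdm : d = m * p ^ k) :
    (PdQp p d ∩ PCFClasses (AlgebraicClosure ℚ_[p]) d).Finite := by
  classical
  obtain ⟨M, N, hN1, huni⟩ := uniform_for_classes p d m k hd hm1 hmp hdm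
  obtain ⟨n, rfl⟩ : ∃ n, d = n + 1 := ⟨d - 1, by omega⟩
  have hfin := finite_locus p n m k M N (by omega) hm1 hmp hdm hN1
  set V := {c : Fin n → PadicAlgCl p | ∀ i,
      (fun z => (polyOf (K := PadicAlgCl p) c).eval z)^[M + N] (c i)
      = (fun z => (polyOf (K := PadicAlgCl p) c).eval z)^[M] (c i)} with hV
  let cl : (Fin n → PadicAlgCl p) → PolyModuli (AlgebraicClosure ℚ_[p]) (n + 1) := fun c =>
    Quotient.mk (affSetoid (AlgebraicClosure ℚ_[p]) (n + 1))
      ⟨polyOf (K := PadicAlgCl p) c, polyOf_natDegree c⟩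
  apply (hfin.image cl).subset
  rintro x ⟨hx1, hx2⟩
  obtain ⟨f, hfx, hpcf⟩ := hx2
  obtain ⟨g, hg, hgd, hg0, hconj⟩ := exists_normalized f.1 (by rw [f.2]; exact hd)
  rw [f.2] at hgd
  have hgx : (Quotient.mk (affSetoid (AlgebraicClosure ℚ_[p]) (n + 1)) ⟨g, hgd⟩ :
      PolyModuli (AlgebraicClosure ℚ_[p]) (n + 1)) = x := by
    rw [← hfx]
    apply Quotient.sound
    exact hconj.symm
  have hgpcf : IsPCF g := hpcf.conj hconj
  have hgal : ∀ σ : PadicAlgCl p ≃ₐ[ℚ_[p]] PadicAlgCl p,
      AffConj g (g.map (σ : PadicAlgCl p →+* PadicAlgCl p)) := by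
    intro σ
    have h1 := hx1 σ
    rw [← hgx] at h1
    have h2 := Quotient.exact h1
    exact AffConj.symm h2
  obtain ⟨c, hc⟩ := exists_polyOf (K := PadicAlgCl p) g hg hgd hg0
  have hall := huni g hg hgd hg0 hgpcf hgal
  refine ⟨c, ?_, ?_⟩
  · rw [hV]
    intro i
    rw [← hc]
    apply hall
    rw [hc]
    exact (polyOf_critical c _).mpr ⟨i, rfl⟩
  · rw [← hgx]
    show Quotient.mk _ _ = Quotient.mk _ _
    congr 1
    exact Subtype.ext hc.symm

end

end Pool.Agent.Work.MP_505b57_nt
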